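import Pool.Agent.H655.EK.Handle

/-!
Straightening relative to a closed set, over one more cell.
-/

open Set Filter Topology Metric

namespace Pool.Agent.H655.EK

/-- Near identity embeddings of `U` which are the identity near `C` can be straightened near `D`
by a homeomorphism supported in a compact subset of `U` and away from `C`. -/
def Straight {X : Type*} [NormedAddCommGroup X] (U C D : Set X) : Prop :=
  ∀ N, IsOpen N → C ⊆ N → ∃ N', IsOpen N' ∧ D ⊆ N' ∧ ∃ K', IsCompact K' ∧ K' ⊆ U ∧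
    ∃ N₁, IsOpen N₁ ∧ C ⊆ N₁ ∧ ∀ ε > 0, ∃ δ > 0, ∀ g : X → X, OE g U →
      (∀ w ∈ U, ‖g w - w‖ ≤ δ) → (∀ w ∈ U ∩ N, g w = w) →
      ∃ h : X ≃ₜ X, (∀ w, w ∉ K' → h w = w) ∧ (∀ w ∈ N₁, h w = w) ∧
        (∀ w, ‖h w - w‖ ≤ ε) ∧ ∀ w ∈ U ∩ N', g w = h w

section
variable {X : Type*} [NormedAddCommGroup X] {U C D D' : Set X}

theorem straight_refl (U C : Set X) : Straight U C C := by
  intro N hN hCN
  refine ⟨N, hN, hCN, ∅, isCompact_empty, empty_subset _, N, hN, hCN, fun ε hε => ⟨1, one_pos, ?_⟩⟩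
  intro g _ _ hid
  refine ⟨Homeomorph.refl X, fun _ _ => rfl, fun _ _ => rfl, ?_, hid⟩
  intro w
  simpa using hε.le

theorem Straight.trans (h1 : Straight U C D) (h2 : Straight U D D') (hCD : C ⊆ D) :
    Straight U C D' := by
  intro N hN hCN
  obtain ⟨N', hN', hDN', K₁, hK₁, hK₁U, N₁, hN₁, hCN₁, H1⟩ := h1 N hN hCN
  obtain ⟨N'', hN'', hDN'', K₂, hK₂, hK₂U, N₂, hN₂, hDN₂, H2⟩ := h2 N' hN' hDN'
  refine ⟨N'', hN'', hDN'', K₁ ∪ K₂, hK₁.union hK₂, union_subset hK₁U hK₂U, N₁ ∩ N₂,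
    hN₁.inter hN₂, subset_inter hCN₁ (hCD.trans hDN₂), fun ε hε => ?_⟩
  obtain ⟨δ₂, hδ₂, H2⟩ := H2 (ε / 2) (by linarith)
  obtain ⟨δ₁, hδ₁, H1⟩ := H1 (min (ε / 2) (δ₂ / 2)) (lt_min (by linarith) (by linarith))
  refine ⟨min δ₁ (δ₂ / 2), lt_min hδ₁ (by linarith), fun g hg hc hid => ?_⟩
  obtain ⟨h, ha, hb, hcl, hd⟩ := H1 g hg (fun w hw => (hc w hw).trans (min_le_left _ _)) hid
  have hsymm : ∀ x, ‖h.symm x - x‖ ≤ min (ε / 2) (δ₂ / 2) := by
    intro x
    have := hcl (h.symm x)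
    rwa [h.apply_symm_apply, norm_sub_rev] at this
  have e1 : OE (fun w => h.symm (g w)) U :=
    (oe_homeo h.symm isOpen_univ : OE h.symm (univ : Set X)).comp hg fun x _ => mem_univ _
  have e2 : ∀ w ∈ U, ‖h.symm (g w) - w‖ ≤ δ₂ := by
    intro w hw
    have : h.symm (g w) - w = (h.symm (g w) - g w) + (g w - w) := by abel
    rw [this]
    refine (norm_add_le _ _).trans ?_
    have h3 := (hsymm (g w)).trans (min_le_right _ _)
    have h4 := (hc w hw).trans (min_le_right _ _)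
    linarith
  have e3 : ∀ w ∈ U ∩ N', h.symm (g w) = w := by
    intro w hw
    rw [hd w hw, h.symm_apply_apply]
  obtain ⟨k, ka, kb, kc, kd⟩ := H2 _ e1 e2 e3
  refine ⟨k.trans h, ?_, ?_, ?_, ?_⟩
  · intro w hw
    rw [mem_union, not_or] at hw
    show h (k w) = w
    rw [ka w hw.2, ha w hw.1]
  · intro w hw
    show h (k w) = w
    rw [kb w hw.2, hb w hw.1]
  · intro w
    show ‖h (k w) - w‖ ≤ ε
    have : h (k w) - w = (h (k w) - k w) + (k w - w) := by abel
    rw [this]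
    refine (norm_add_le _ _).trans ?_
    have h3 := (hcl (k w)).trans (min_le_left _ _)
    have h4 := kc w
    linarith
  · intro w hw
    show g w = h (k w)
    rw [← kd w hw, h.apply_symm_apply]

theorem Straight.mono (h : Straight U C D) (hD : D' ⊆ D) : Straight U C D' := by
  intro N hN hCN
  obtain ⟨N', hN', hDN', H⟩ := h N hN hCN
  exact ⟨N', hN', hD.trans hDN', H⟩

end

variable {ι : Type*} [Fintype ι] [DecidableEq ι]

/-- A cell with transversal directions `A`. -/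
def cell (A : Finset ι) (c : ι → ℝ) (b : ℝ) : Set (ι → ℝ) :=
  {w | (∀ i ∈ A, w i = c i) ∧ ∀ i, i ∉ A → |w i - c i| ≤ b}

theorem isCompact_box (A : Finset ι) (c : ι → ℝ) (r b : ℝ) :
    IsCompact {w : ι → ℝ | (∀ i ∈ A, |w i - c i| ≤ r) ∧ ∀ i, i ∉ A → |w i - c i| ≤ b} := by
  have h : {w : ι → ℝ | (∀ i ∈ A, |w i - c i| ≤ r) ∧ ∀ i, i ∉ A → |w i - c i| ≤ b} =
      Set.pi univ fun i => closedBall (c i) (if i ∈ A then r else b) := by
    ext w
    simp only [mem_ofPred_eq, Set.mem_pi, mem_univ, forall_true_left, mem_closedBall, Real.dist_eq]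
    constructor
    · rintro ⟨h1, h2⟩ i
      by_cases hi : i ∈ A
      · rw [if_pos hi]
        exact h1 i hi
      · rw [if_neg hi]
        exact h2 i hi
    · intro h
      refine ⟨fun i hi => ?_, fun i hi => ?_⟩
      · have := h i
        rwa [if_pos hi] at this
      · have := h i
        rwa [if_neg hi] at this
  rw [h]
  exact isCompact_univ_pi fun i => isCompact_closedBall _ _

theorem cell_eq (A : Finset ι) (c : ι → ℝ) (b : ℝ) :
    cell A c b = {w : ι → ℝ | (∀ i ∈ A, |w i - c i| ≤ 0) ∧ ∀ i, i ∉ A → |w i - c i| ≤ b} := by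
  ext w
  simp only [cell, mem_ofPred_eq, abs_nonpos_iff, sub_eq_zero]

theorem cell_compact (A : Finset ι) (c : ι → ℝ) (b : ℝ) : IsCompact (cell A c b) := by
  rw [cell_eq]
  exact isCompact_box A c 0 b

/-- A tube around a compact part of a cell. -/
theorem tube (A : Finset ι) (c : ι → ℝ) {T V : Set (ι → ℝ)} (hT : IsCompact T) (hV : IsOpen V)
    (hTV : T ⊆ V) : ∃ R > 0, ∀ w : ι → ℝ, (∀ i ∈ A, |w i - c i| ≤ R) →
      (fun i => if i ∈ A then c i else w i) ∈ T → w ∈ V := by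
  obtain ⟨R, hR, hsub⟩ := hT.exists_cthickening_subset_open hV hTV
  refine ⟨R, hR, fun w hw hwT => hsub ?_⟩
  refine mem_cthickening_of_dist_le _ _ _ _ hwT ?_
  rw [dist_pi_le_iff hR.le]
  intro i
  by_cases hi : i ∈ A
  · simp only [if_pos hi]
    exact hw i hi
  · simp only [if_neg hi, dist_self]
    exact hR.le

/-- Straightening over one more cell. -/
theorem straight_cell {U C : Set (ι → ℝ)} (hU : IsOpen U) (hC : IsClosed C) (A : Finset ι)
    (c : ι → ℝ) {b : ℝ} (hb : 0 < b) (hFU : cell A c b ⊆ U)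
    (hbd : ∀ w ∈ cell A c b, (∃ i, i ∉ A ∧ |w i - c i| = b) → w ∈ C)
    (hint : ∀ w, (∀ i ∈ A, w i = c i) → (∀ i, i ∉ A → |w i - c i| < b) → w ∉ C) :
    Straight U C (C ∪ cell A c b) := by
  classical
  intro N hN hCN
  -- the radius `a`
  obtain ⟨a, ha0, hab, haN⟩ : ∃ a, 0 < a ∧ a < b ∧
      ∀ w ∈ cell A c b, (∃ i, i ∉ A ∧ a ≤ |w i - c i|) → w ∈ N := by
    have hK : IsCompact (cell A c b \ N) := (cell_compact A c b).diff hN
    set φ : (ι → ℝ) → ℝ := fun w => ‖fun i => if i ∈ A then 0 else w i - c i‖ with hφ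
    have hφc : Continuous φ := by
      refine continuous_norm.comp (continuous_pi fun i => ?_)
      by_cases hi : i ∈ A
      · simp only [if_pos hi]
        exact continuous_const
      · simp only [if_neg hi]
        exact (continuous_apply i).sub continuous_const
    have hφle : ∀ w i, i ∉ A → |w i - c i| ≤ φ w := by
      intro w i hi
      have := norm_le_pi_norm (fun i => if i ∈ A then 0 else w i - c i) i
      simp only [if_neg hi, Real.norm_eq_abs] at this
      exact this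
    rcases (cell A c b \ N).eq_empty_or_nonempty with he | hne
    · refine ⟨b / 2, by linarith, by linarith, fun w hw _ => ?_⟩
      by_contra hn
      exact (eq_empty_iff_forall_notMem.1 he w) ⟨hw, hn⟩
    · obtain ⟨w₀, hw₀, hmax⟩ := hK.exists_isMaxOn hne hφc.continuousOn
      have h1 : φ w₀ < b := by
        rw [hφ]
        simp only
        rw [pi_norm_lt_iff hb]
        intro i
        by_cases hi : i ∈ A
        · simp only [if_pos hi, norm_zero]
          exact hb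
        · simp only [if_neg hi, Real.norm_eq_abs]
          refine lt_of_le_of_ne (hw₀.1.2 i hi) fun h => ?_
          exact hw₀.2 (hCN (hbd w₀ hw₀.1 ⟨i, hi, h⟩))
      have h0 : 0 ≤ φ w₀ := norm_nonneg _
      refine ⟨(φ w₀ + b) / 2, by linarith, by linarith, fun w hw hi => ?_⟩
      by_contra hn
      obtain ⟨i, hi, h2⟩ := hi
      have h3 : φ w ≤ φ w₀ := hmax ⟨hw, hn⟩
      have h4 := hφle w i hi
      linarith
  set a' := (a + b) / 2 with ha'
  have haa' : a < a' := by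
    rw [ha']
    linarith
  have ha'b : a' < b := by
    rw [ha']
    linarith
  have hsubcell : cell A c a' ⊆ cell A c b := fun w hw =>
    ⟨hw.1, fun i hi => (hw.2 i hi).trans ha'b.le⟩
  obtain ⟨R₁, hR₁, htube1⟩ := tube A c (cell_compact A c a') (hU.inter hC.isOpen_compl)
    (fun w hw => ⟨hFU (hsubcell hw), hint w hw.1 fun i hi => (hw.2 i hi).trans_lt ha'b⟩)
  have hcl : IsClosed {w : ι → ℝ | ∃ i, i ∉ A ∧ a ≤ |w i - c i|} := by
    have : {w : ι → ℝ | ∃ i, i ∉ A ∧ a ≤ |w i - c i|} =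
        ⋃ i ∈ (Finset.univ \ A : Finset ι), {w : ι → ℝ | a ≤ |w i - c i|} := by
      ext w
      simp
    rw [this]
    refine isClosed_biUnion_finset fun i _ => isClosed_le continuous_const ?_
    exact continuous_abs.comp ((continuous_apply i).sub continuous_const)
  obtain ⟨R₂, hR₂, htube2⟩ := tube A c ((cell_compact A c a').inter_right hcl) hN
    (fun w hw => haN w (hsubcell hw.1) hw.2)
  set R := min R₁ R₂ with hR
  have hR0 : 0 < R := lt_min hR₁ hR₂
  have hproj : ∀ w : ι → ℝ, (∀ i, i ∉ A → |w i - c i| ≤ a') →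
      (fun i => if i ∈ A then c i else w i) ∈ cell A c a' := by
    intro w hw
    refine ⟨fun i hi => by simp only [if_pos hi], fun i hi => ?_⟩
    simp only [if_neg hi]
    exact hw i hi
  have hT1 : ∀ w : ι → ℝ, (∀ i ∈ A, |w i - c i| ≤ R) → (∀ i, i ∉ A → |w i - c i| ≤ a') →
      w ∈ U ∧ w ∉ C := fun w h1 h2 =>
    htube1 w (fun i hi => (h1 i hi).trans (min_le_left _ _)) (hproj w h2)
  have hT2 : ∀ w : ι → ℝ, (∀ i ∈ A, |w i - c i| ≤ R) → (∀ i, i ∉ A → |w i - c i| ≤ a') →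
      (∃ i, i ∉ A ∧ a ≤ |w i - c i|) → w ∈ N := by
    rintro w h1 h2 ⟨i, hi, h3⟩
    refine htube2 w (fun i hi => (h1 i hi).trans (min_le_right _ _)) ⟨hproj w h2, i, hi, ?_⟩
    simp only [if_neg hi]
    exact h3
  set K' : Set (ι → ℝ) := {w | (∀ i ∈ A, |w i - c i| ≤ R / 2) ∧ ∀ i, i ∉ A → |w i - c i| ≤ a}
    with hK'
  have hK'c : IsCompact K' := isCompact_box A c (R / 2) a
  have hK'UC : ∀ w ∈ K', w ∈ U ∧ w ∉ C := fun w hw =>
    hT1 w (fun i hi => (hw.1 i hi).trans (by linarith)) fun i hi => (hw.2 i hi).trans haa'.le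
  have hopenA : ∀ r : ℝ, IsOpen {w : ι → ℝ | ∀ i ∈ A, |w i - c i| < r} := by
    intro r
    have : {w : ι → ℝ | ∀ i ∈ A, |w i - c i| < r} = ⋂ i ∈ A, {w : ι → ℝ | |w i - c i| < r} := by
      ext w
      simp
    rw [this]
    refine isOpen_biInter_finset fun i _ => isOpen_lt ?_ continuous_const
    exact continuous_abs.comp ((continuous_apply i).sub continuous_const)
  have hopenB : ∀ r : ℝ, IsOpen {w : ι → ℝ | ∀ i, i ∉ A → |w i - c i| < r} := by
    intro r
    have : {w : ι → ℝ | ∀ i, i ∉ A → |w i - c i| < r} =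
        ⋂ i ∈ (Finset.univ \ A : Finset ι), {w : ι → ℝ | |w i - c i| < r} := by
      ext w
      simp
    rw [this]
    refine isOpen_biInter_finset fun i _ => isOpen_lt ?_ continuous_const
    exact continuous_abs.comp ((continuous_apply i).sub continuous_const)
  refine ⟨({w : ι → ℝ | ∀ i ∈ A, |w i - c i| < R / 8} ∩
      {w : ι → ℝ | ∀ i, i ∉ A → |w i - c i| < a'}) ∪ (N ∩ K'ᶜ), ?_, ?_, K', hK'c,
      fun w hw => (hK'UC w hw).1, K'ᶜ, hK'c.isClosed.isOpen_compl,
      fun w hw h => (hK'UC w h).2 hw, fun ε hε => ?_⟩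
  · exact ((hopenA _).inter (hopenB _)).union (hN.inter hK'c.isClosed.isOpen_compl)
  · rintro w (hw | hw)
    · exact Or.inr ⟨hCN hw, fun h => (hK'UC w h).2 hw⟩
    · by_cases h : ∀ i, i ∉ A → |w i - c i| < a'
      · refine Or.inl ⟨fun i hi => ?_, h⟩
        rw [hw.1 i hi, sub_self, abs_zero]
        positivity
      · push Not at h
        obtain ⟨i, hi, h1⟩ := h
        refine Or.inr ⟨haN w hw ⟨i, hi, haa'.le.trans h1⟩, fun h2 => ?_⟩
        have := h2.2 i hi
        linarith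
  obtain ⟨δ, hδ, H⟩ := handle1 A c ha0 hR0 ε hε
  refine ⟨min δ (a' - a), lt_min hδ (by linarith), fun g hg hgc hid => ?_⟩
  set gx : (ι → ℝ) → (ι → ℝ) := fun w => if (∀ i, i ∉ A → |w i - c i| < a') then g w else w
    with hgx
  have hgx1 : ∀ w, (∀ i, i ∉ A → |w i - c i| < a') → gx w = g w := fun w hw => if_pos hw
  have hgx2 : ∀ w, ¬ (∀ i, i ∉ A → |w i - c i| < a') → gx w = w := fun w hw => if_neg hw
  have hgid : ∀ w : ι → ℝ, (∀ i ∈ A, |w i - c i| < R) → (∀ i, i ∉ A → |w i - c i| < a') →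
      (∃ i, i ∉ A ∧ a ≤ |w i - c i|) → g w = w := by
    intro w h1 h2 h3
    refine hid w ⟨(hT1 w (fun i hi => (h1 i hi).le) fun i hi => (h2 i hi).le).1, ?_⟩
    exact hT2 w (fun i hi => (h1 i hi).le) (fun i hi => (h2 i hi).le) h3
  have hgxid : ∀ w : ι → ℝ, (∀ i ∈ A, |w i - c i| < R) → (∃ i, i ∉ A ∧ a ≤ |w i - c i|) →
      gx w = w := by
    intro w h1 h3
    by_cases h2 : ∀ i, i ∉ A → |w i - c i| < a'
    · rw [hgx1 w h2]
      exact hgid w h1 h2 h3
    · exact hgx2 w h2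
  have hU1 : ∀ w : ι → ℝ, (∀ i ∈ A, |w i - c i| < R) → (∀ i, i ∉ A → |w i - c i| < a') → w ∈ U :=
    fun w h1 h2 => (hT1 w (fun i hi => (h1 i hi).le) fun i hi => (h2 i hi).le).1
  have hinj : InjOn gx {w | ∀ i ∈ A, |w i - c i| < R} := by
    have hmix : ∀ x y : ι → ℝ, (∀ i ∈ A, |x i - c i| < R) → (∀ i, i ∉ A → |x i - c i| < a') →
        ¬ (∀ i, i ∉ A → |y i - c i| < a') → gx x = gx y → x = y := by
      intro x y hx hx2 hy2 hxy
      rw [hgx1 x hx2, hgx2 y hy2] at hxy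
      push Not at hy2
      obtain ⟨i, hi, hyi⟩ := hy2
      have h1 := (hgc x (hU1 x hx hx2)).trans (min_le_right _ _)
      rw [hxy] at h1
      have h2 := norm_le_pi_norm (y - x) i
      rw [Real.norm_eq_abs, Pi.sub_apply] at h2
      have h3 : |y i - c i| ≤ |y i - x i| + |x i - c i| := by
        have := abs_add_le (y i - x i) (x i - c i)
        simpa using this
      have h4 : a ≤ |x i - c i| := by linarith
      rw [hgid x hx hx2 ⟨i, hi, h4⟩] at hxy
      exact hxy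
    intro x hx y hy hxy
    by_cases h1 : ∀ i, i ∉ A → |x i - c i| < a'
    · by_cases h2 : ∀ i, i ∉ A → |y i - c i| < a'
      · rw [hgx1 x h1, hgx1 y h2] at hxy
        exact hg.inj (hU1 x hx h1) (hU1 y hy h2) hxy
      · exact hmix x y hx h1 h2 hxy
    · by_cases h2 : ∀ i, i ∉ A → |y i - c i| < a'
      · exact (hmix y x hy h2 h1 hxy.symm).symm
      · rwa [hgx2 x h1, hgx2 y h2] at hxy
  have hOE : OE gx {w | ∀ i ∈ A, |w i - c i| < R} := by
    refine oe_local hinj ?_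
    intro w hw
    by_cases h1 : ∀ i, i ∉ A → |w i - c i| < a'
    · refine ⟨{w : ι → ℝ | ∀ i ∈ A, |w i - c i| < R} ∩
        {w : ι → ℝ | ∀ i, i ∉ A → |w i - c i| < a'}, ⟨hw, h1⟩, inter_subset_left, ?_⟩
      exact (hg.mono ((hopenA _).inter (hopenB _)) fun x hx => hU1 x hx.1 hx.2).congr
        fun x hx => (hgx1 x hx.2).symm
    · push Not at h1
      obtain ⟨i, hi, h2⟩ := h1
      have hop : IsOpen ({w : ι → ℝ | ∀ i ∈ A, |w i - c i| < R} ∩
          {w : ι → ℝ | a < |w i - c i|}) := by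
        refine (hopenA _).inter (isOpen_lt continuous_const ?_)
        exact continuous_abs.comp ((continuous_apply i).sub continuous_const)
      refine ⟨{w : ι → ℝ | ∀ i ∈ A, |w i - c i| < R} ∩ {w : ι → ℝ | a < |w i - c i|},
        ⟨hw, lt_of_lt_of_le haa' h2⟩, inter_subset_left, ?_⟩
      refine (oe_id hop).congr fun x hx => ?_
      have hx2 : a < |x i - c i| := hx.2
      exact (hgxid x hx.1 ⟨i, hi, hx2.le⟩).symm
  obtain ⟨h, h1, h2, h3⟩ := H gx hOE (by
    intro w hw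
    by_cases h4 : ∀ i, i ∉ A → |w i - c i| < a'
    · rw [hgx1 w h4]
      exact (hgc w (hU1 w hw h4)).trans (min_le_left _ _)
    · rw [hgx2 w h4, sub_self, norm_zero]
      exact hδ.le) hgxid
  have hoff : ∀ w, w ∉ K' → h w = w := by
    intro w hw
    by_contra hn
    obtain ⟨e1, e2⟩ := h1 w hn
    exact hw ⟨fun i hi => (e2 i hi).le, fun i hi => (e1 i hi).le⟩
  refine ⟨h, hoff, hoff, h2, ?_⟩
  rintro w ⟨hwU, hw | hw⟩
  · rw [h3 w hw.1]
    exact (hgx1 w hw.2).symm
  · rw [hoff w hw.2]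
    exact hid w ⟨hwU, hw.1⟩

end Pool.Agent.H655.EK
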