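import Pool.Agent.H655.EK.Grid

/-!
The relative straightening theorem in finite dimensional normed spaces.
-/

open Set Filter Topology Metric

namespace Pool.Agent.H655.EK

variable {E : Type*} [NormedAddCommGroup E] [NormedSpace ℝ E] [FiniteDimensional ℝ E]

/-- Near identity open embeddings of `U` which are the identity near `C` agree near `K` with small
homeomorphisms which are supported in a compact subset of `U` and are the identity near `C`. -/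
theorem ek {U K C N : Set E} (hU : IsOpen U) (hK : IsCompact K) (hKU : K ⊆ U)
    (hC : IsClosed C) (hN : IsOpen N) (hCN : C ⊆ N) :
    ∃ N', IsOpen N' ∧ K ⊆ N' ∧ ∃ K', IsCompact K' ∧ K' ⊆ U ∧ ∃ N₁, IsOpen N₁ ∧ C ⊆ N₁ ∧
      ∀ ε > 0, ∃ δ > 0, ∀ g : E → E, OE g U → (∀ w ∈ U, ‖g w - w‖ ≤ δ) →
        (∀ w ∈ U ∩ N, g w = w) → ∃ h : E ≃ₜ E, (∀ w, w ∉ K' → h w = w) ∧
          (∀ w ∈ N₁, h w = w) ∧ (∀ w, ‖h w - w‖ ≤ ε) ∧ ∀ w ∈ U ∩ N', g w = h w := by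
  set L : E ≃L[ℝ] (Fin (Module.finrank ℝ E) → ℝ) :=
    ContinuousLinearEquiv.ofFinrankEq (by simp) with hL
  set Φ := L.toHomeomorph with hΦ
  have hΦa : ∀ x, Φ x = L x := fun _ => rfl
  have hΦs : ∀ x, Φ.symm x = L.symm x := fun _ => rfl
  set A := ‖(L : E →L[ℝ] (Fin (Module.finrank ℝ E) → ℝ))‖ + 1 with hA
  set B := ‖(L.symm : (Fin (Module.finrank ℝ E) → ℝ) →L[ℝ] E)‖ + 1 with hB
  have hA0 : 0 < A := by positivity
  have hB0 : 0 < B := by positivity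
  have hLA : ∀ x y, ‖Φ x - Φ y‖ ≤ A * ‖x - y‖ := by
    intro x y
    rw [hΦa, hΦa, ← map_sub]
    have h1 := (L : E →L[ℝ] (Fin (Module.finrank ℝ E) → ℝ)).le_opNorm (x - y)
    have h2 : ‖L (x - y)‖ ≤ ‖(L : E →L[ℝ] (Fin (Module.finrank ℝ E) → ℝ))‖ * ‖x - y‖ := h1
    refine h2.trans ?_
    rw [hA, add_mul]
    linarith [norm_nonneg (x - y)]
  have hLB : ∀ x y, ‖Φ.symm x - Φ.symm y‖ ≤ B * ‖x - y‖ := by
    intro x y
    rw [hΦs, hΦs, ← map_sub]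
    have h1 := (L.symm : (Fin (Module.finrank ℝ E) → ℝ) →L[ℝ] E).le_opNorm (x - y)
    have h2 : ‖L.symm (x - y)‖ ≤
        ‖(L.symm : (Fin (Module.finrank ℝ E) → ℝ) →L[ℝ] E)‖ * ‖x - y‖ := h1
    refine h2.trans ?_
    rw [hB, add_mul]
    linarith [norm_nonneg (x - y)]
  have hmem : ∀ (S : Set E) (y), y ∈ Φ.symm ⁻¹' S ↔ Φ.symm y ∈ S := fun _ _ => Iff.rfl
  obtain ⟨N', hN', hKN', K', hK', hK'U, N₁, hN₁, hCN₁, H⟩ := ek_pi (U := Φ.symm ⁻¹' U)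
    (K := Φ '' K) (C := Φ.symm ⁻¹' C) (N := Φ.symm ⁻¹' N) (hU.preimage Φ.symm.continuous)
    (hK.image Φ.continuous) (by
      rintro _ ⟨x, hx, rfl⟩
      rw [hmem, Φ.symm_apply_apply]
      exact hKU hx)
    (hC.preimage Φ.symm.continuous) (hN.preimage Φ.symm.continuous) (preimage_mono hCN)
  refine ⟨Φ ⁻¹' N', hN'.preimage Φ.continuous, fun x hx => hKN' (mem_image_of_mem _ hx),
    Φ.symm '' K', hK'.image Φ.symm.continuous, ?_, Φ ⁻¹' N₁, hN₁.preimage Φ.continuous, ?_,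
    fun ε hε => ?_⟩
  · rintro _ ⟨x, hx, rfl⟩
    exact hK'U hx
  · intro x hx
    apply hCN₁
    rw [hmem, Φ.symm_apply_apply]
    exact hx
  obtain ⟨δ, hδ, H⟩ := H (ε / B) (by positivity)
  refine ⟨δ / A, by positivity, fun g hg hc hid => ?_⟩
  have h1 : OE (fun x => Φ (g (Φ.symm x))) (Φ.symm ⁻¹' U) := by
    have e1 : OE Φ.symm (Φ.symm ⁻¹' U) := oe_homeo Φ.symm (hU.preimage Φ.symm.continuous)
    have e2 : OE (g ∘ Φ.symm) (Φ.symm ⁻¹' U) := hg.comp e1 fun x hx => hx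
    have e3 : OE Φ (univ : Set E) := oe_homeo Φ isOpen_univ
    exact e3.comp e2 fun x _ => mem_univ _
  obtain ⟨h, ha, hb, hcl, hd⟩ := H _ h1 (by
      intro w hw
      have e1 := hLA (g (Φ.symm w)) (Φ.symm w)
      rw [Φ.apply_symm_apply] at e1
      refine e1.trans ?_
      calc A * ‖g (Φ.symm w) - Φ.symm w‖ ≤ A * (δ / A) :=
            mul_le_mul_of_nonneg_left (hc _ hw) hA0.le
        _ = δ := by field_simp)
    (by
      intro w hw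
      rw [hid (Φ.symm w) ⟨hw.1, hw.2⟩, Φ.apply_symm_apply])
  refine ⟨(Φ.trans h).trans Φ.symm, ?_, ?_, ?_, ?_⟩
  · intro w hw
    show Φ.symm (h (Φ w)) = w
    rw [ha, Φ.symm_apply_apply]
    intro hn
    exact hw ⟨Φ w, hn, Φ.symm_apply_apply w⟩
  · intro w hw
    show Φ.symm (h (Φ w)) = w
    rw [hb (Φ w) hw, Φ.symm_apply_apply]
  · intro w
    show ‖Φ.symm (h (Φ w)) - w‖ ≤ ε
    have e1 := hLB (h (Φ w)) (Φ w)
    rw [Φ.symm_apply_apply] at e1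
    refine e1.trans ?_
    calc B * ‖h (Φ w) - Φ w‖ ≤ B * (ε / B) := mul_le_mul_of_nonneg_left (hcl _) hB0.le
      _ = ε := by field_simp
  · intro w hw
    show g w = Φ.symm (h (Φ w))
    have e1 := hd (Φ w) ⟨by rw [hmem, Φ.symm_apply_apply]; exact hw.1, hw.2⟩
    rw [← e1, Φ.symm_apply_apply, Φ.symm_apply_apply]

/-- Choice of an almost optimal homeomorphism. -/
theorem exists_opt (Good : (E ≃ₜ E) → Prop)
    (hid : (∀ ε > 0, ∃ h : E ≃ₜ E, Good h ∧ ∀ w, ‖h w - w‖ ≤ ε) → Good (Homeomorph.refl E)) :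
    ∃ T : E ≃ₜ E, ∀ ε > 0, (∃ h : E ≃ₜ E, Good h ∧ ∀ w, ‖h w - w‖ ≤ ε) →
      Good T ∧ ∀ w, ‖T w - w‖ ≤ 2 * ε := by
  by_cases hall : ∀ ε > 0, ∃ h : E ≃ₜ E, Good h ∧ ∀ w, ‖h w - w‖ ≤ ε
  · refine ⟨Homeomorph.refl E, fun ε hε _ => ⟨hid hall, fun w => ?_⟩⟩
    have h1 : Homeomorph.refl E w - w = 0 := sub_self w
    rw [h1, norm_zero]
    linarith
  · push Not at hall
    obtain ⟨ε₀, hε₀, hno⟩ := hall
    set S : Set ℝ := {ε | 0 < ε ∧ ∃ h : E ≃ₜ E, Good h ∧ ∀ w, ‖h w - w‖ ≤ ε} with hS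
    rcases S.eq_empty_or_nonempty with he | hne
    · refine ⟨Homeomorph.refl E, fun ε hε h => ?_⟩
      exact absurd (show ε ∈ S from ⟨hε, h⟩) (by rw [he]; exact notMem_empty _)
    · have hlow : ∀ ε ∈ S, ε₀ ≤ ε := by
        rintro ε ⟨_, h, hg, hh⟩
        by_contra hn
        obtain ⟨w, hw⟩ := hno h hg
        linarith [hh w, not_le.1 hn]
      have hc : ε₀ ≤ sInf S := le_csInf hne hlow
      obtain ⟨ε₁, hε₁, hlt⟩ := exists_lt_of_csInf_lt hne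
        (show sInf S < 2 * sInf S by linarith)
      obtain ⟨_, h, hg, hh⟩ := hε₁
      refine ⟨h, fun ε hε hex => ⟨hg, fun w => (hh w).trans ?_⟩⟩
      have : sInf S ≤ ε := csInf_le ⟨ε₀, hlow⟩ ⟨hε, hex⟩
      linarith

end Pool.Agent.H655.EK
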