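import Mathlib

/-!
Open embeddings of open sets, and near identity maps.
-/

open Set Filter Topology Metric

namespace Pool.Agent.H655.EK

/-- `f` restricts to an open embedding of the open set `W`. -/
structure OE {X Y : Type*} [TopologicalSpace X] [TopologicalSpace Y] (f : X → Y) (W : Set X) :
    Prop where
  op : IsOpen W
  cont : ContinuousOn f W
  inj : InjOn f W
  img : ∀ V ⊆ W, IsOpen V → IsOpen (f '' V)

section
variable {X Y Z : Type*} [TopologicalSpace X] [TopologicalSpace Y] [TopologicalSpace Z]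
  {f : X → Y} {g : Y → Z} {W V : Set X} {W' : Set Y}

theorem OE.mono (h : OE f W) (hV : IsOpen V) (hs : V ⊆ W) : OE f V :=
  ⟨hV, h.cont.mono hs, h.inj.mono hs, fun _ hU ho => h.img _ (hU.trans hs) ho⟩

theorem OE.comp (hg : OE g W') (hf : OE f W) (hm : ∀ x ∈ W, f x ∈ W') : OE (g ∘ f) W := by
  refine ⟨hf.op, hg.cont.comp hf.cont hm, hg.inj.comp hf.inj hm, ?_⟩
  intro U hU ho
  rw [image_comp]
  refine hg.img _ ?_ (hf.img U hU ho)
  rintro _ ⟨x, hx, rfl⟩
  exact hm x (hU hx)

theorem OE.congr {f' : X → Y} (h : OE f W) (he : ∀ x ∈ W, f x = f' x) : OE f' W := by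
  refine ⟨h.op, h.cont.congr fun x hx => (he x hx).symm, ?_, ?_⟩
  · intro x hx y hy hxy
    rw [← he x hx, ← he y hy] at hxy
    exact h.inj hx hy hxy
  · intro U hU ho
    have : f' '' U = f '' U := image_congr fun x hx => (he x (hU hx)).symm
    rw [this]
    exact h.img U hU ho

theorem oe_homeo (e : X ≃ₜ Y) (hW : IsOpen W) : OE e W :=
  ⟨hW, e.continuous.continuousOn, e.injective.injOn, fun V _ ho => e.isOpenMap V ho⟩

theorem oe_id (hW : IsOpen W) : OE (fun x : X => x) W :=
  ⟨hW, continuousOn_id, Function.injective_id.injOn, fun V _ ho => by simpa using ho⟩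

theorem OE.isOpen_image (h : OE f W) : IsOpen (f '' W) := h.img W Subset.rfl h.op

/-- Being an open embedding is a local property, for injective maps. -/
theorem oe_local (hinj : InjOn f W) (h : ∀ x ∈ W, ∃ V, x ∈ V ∧ V ⊆ W ∧ OE f V) : OE f W := by
  have hop : IsOpen W := by
    rw [isOpen_iff_mem_nhds]
    intro x hx
    obtain ⟨V, hxV, hVW, hV⟩ := h x hx
    exact mem_of_superset (hV.op.mem_nhds hxV) hVW
  refine ⟨hop, ?_, hinj, ?_⟩
  · intro x hx
    obtain ⟨V, hxV, hVW, hV⟩ := h x hx
    exact (hV.cont.continuousAt (hV.op.mem_nhds hxV)).continuousWithinAt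
  · intro U hU ho
    rw [isOpen_iff_mem_nhds]
    rintro _ ⟨x, hx, rfl⟩
    obtain ⟨V, hxV, hVW, hV⟩ := h x (hU hx)
    refine mem_of_superset ((hV.img (V ∩ U) inter_subset_left (hV.op.inter ho)).mem_nhds
      (mem_image_of_mem f ⟨hxV, hx⟩)) (image_mono inter_subset_right)

/-- The inverse of an open embedding. -/
theorem OE.symm [Nonempty X] (h : OE f W) : ∃ g : Y → X, OE g (f '' W) ∧ (∀ x ∈ W, g (f x) = x) ∧
    (∀ y ∈ f '' W, g y ∈ W ∧ f (g y) = y) := by
  classical
  have h1 : ∀ y ∈ f '' W, Function.invFunOn f W y ∈ W ∧ f (Function.invFunOn f W y) = y :=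
    fun y hy => ⟨Function.invFunOn_mem hy, Function.invFunOn_eq hy⟩
  have h2 : ∀ x ∈ W, Function.invFunOn f W (f x) = x := fun x hx =>
    h.inj (h1 _ (mem_image_of_mem f hx)).1 hx (h1 _ (mem_image_of_mem f hx)).2
  refine ⟨Function.invFunOn f W, ⟨h.isOpen_image, ?_, ?_, ?_⟩, h2, h1⟩
  · intro y hy
    refine ContinuousAt.continuousWithinAt ?_
    intro U hU
    rw [mem_map]
    obtain ⟨U', hU'U, hU'o, hyU'⟩ := mem_nhds_iff.1 hU
    refine mem_of_superset ((h.img (W ∩ U') inter_subset_left (h.op.inter hU'o)).mem_nhds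
      ⟨_, ⟨(h1 y hy).1, hyU'⟩, (h1 y hy).2⟩) ?_
    rintro _ ⟨x, ⟨hxW, hxU⟩, rfl⟩
    show Function.invFunOn f W (f x) ∈ U
    rw [h2 x hxW]
    exact hU'U hxU
  · intro y hy y' hy' hyy
    rw [← (h1 y hy).2, hyy, (h1 y' hy').2]
  · intro V hV ho
    have : Function.invFunOn f W '' V = W ∩ f ⁻¹' V := by
      ext x
      constructor
      · rintro ⟨y, hy, rfl⟩
        refine ⟨(h1 y (hV hy)).1, ?_⟩
        show f _ ∈ V
        rw [(h1 y (hV hy)).2]
        exact hy
      · rintro ⟨hxW, hx⟩
        exact ⟨f x, hx, h2 x hxW⟩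
    rw [this]
    exact h.cont.isOpen_inter_preimage h.op ho

end

section
variable {E : Type*} [NormedAddCommGroup E] [NormedSpace ℝ E] [ProperSpace E]

/-- A near identity open embedding of a ball covers the centre. -/
theorem cover {f : E → E} {w : E} {r δ : ℝ} (hf : OE f (ball w r))
    (h : ∀ x ∈ ball w r, ‖f x - x‖ ≤ δ) (hr : 2 * δ < r) (hδ : 0 ≤ δ) :
    ∃ x ∈ ball w r, ‖x - w‖ ≤ δ ∧ f x = w := by
  obtain ⟨r', h1, h2⟩ := exists_between hr
  have hsub : closedBall w r' ⊆ ball w r := closedBall_subset_ball h2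
  have hK : IsCompact (f '' closedBall w r') :=
    (isCompact_closedBall w r').image_of_continuousOn (hf.cont.mono hsub)
  have hV : IsPreconnected (ball w (r' - δ)) := (convex_ball w (r' - δ)).isPreconnected
  have hO : IsOpen (f '' ball w r') := hf.img _ (ball_subset_closedBall.trans hsub) isOpen_ball
  have hcov : ball w (r' - δ) ⊆ f '' ball w r' ∪ (f '' closedBall w r')ᶜ := by
    intro y hy
    by_cases hy' : y ∈ f '' closedBall w r'
    · left
      obtain ⟨x, hx, rfl⟩ := hy'
      refine ⟨x, ?_, rfl⟩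
      rw [mem_ball_iff_norm] at hy ⊢
      have h3 := h x (hsub hx)
      have h4 : ‖x - w‖ ≤ ‖f x - w‖ + ‖f x - x‖ := by
        have : x - w = (f x - w) - (f x - x) := by abel
        rw [this]
        exact norm_sub_le _ _
      linarith
    · right
      exact hy'
  have hw : w ∈ ball w r := mem_ball_self (by linarith)
  have hfw : f w ∈ ball w (r' - δ) := by
    rw [mem_ball_iff_norm]
    have := h w hw
    linarith
  have hsubset : ball w (r' - δ) ⊆ f '' ball w r' := by
    refine hV.subset_left_of_subset_union hO hK.isClosed.isOpen_compl ?_ hcov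
      ⟨f w, hfw, ⟨w, mem_ball_self (by linarith), rfl⟩⟩
    rw [Set.disjoint_compl_right_iff_subset]
    exact image_mono ball_subset_closedBall
  obtain ⟨x, hx, hxw⟩ := hsubset (mem_ball_self (by linarith))
  have hx' : x ∈ ball w r := hsub (ball_subset_closedBall hx)
  refine ⟨x, hx', ?_, hxw⟩
  have := h x hx'
  rw [hxw, norm_sub_rev] at this
  exact this

/-- An open embedding of the whole space at bounded distance from the identity is a
homeomorphism. -/
theorem exists_homeo {f : E → E} {δ : ℝ} (hf : OE f univ) (h : ∀ x, ‖f x - x‖ ≤ δ) :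
    ∃ e : E ≃ₜ E, ∀ x, e x = f x := by
  have hδ : 0 ≤ δ := (norm_nonneg _).trans (h 0)
  have hsurj : Function.Surjective f := by
    intro w
    obtain ⟨x, _, _, hx⟩ := cover (w := w) (r := 2 * δ + 1) (hf.mono isOpen_ball (subset_univ _))
      (fun x _ => h x) (by linarith) hδ
    exact ⟨x, hx⟩
  have hinj : Function.Injective f := injOn_univ.1 hf.inj
  have hcont : Continuous f := continuousOn_univ.1 hf.cont
  have hopen : IsOpenMap f := fun V hV => hf.img V (subset_univ _) hV
  exact ⟨(Equiv.ofBijective f ⟨hinj, hsurj⟩).toHomeomorphOfContinuousOpen hcont hopen,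
    fun x => rfl⟩

end

end Pool.Agent.H655.EK
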