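import Pool.Agent.H655.EK.Basic

/-!
Radial compression of a bounded homeomorphism of a normed space into a ball.
-/

open Set Filter Topology Metric

namespace Pool.Agent.H655.EK

variable {E : Type*} [NormedAddCommGroup E] [NormedSpace ℝ E]

noncomputable def rm (x : E) : ℝ := max ‖x‖ 1

/-- The radial compression of the space onto the ball of radius two. -/
noncomputable def rad (x : E) : E := ((rm x)⁻¹ * (2 - (rm x)⁻¹)) • x

/-- The inverse of the radial compression. -/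
noncomputable def radi (w : E) : E := (rm w * (2 - rm w))⁻¹ • w

theorem one_le_rm (x : E) : 1 ≤ rm x := le_max_right _ _

theorem le_rm (x : E) : ‖x‖ ≤ rm x := le_max_left _ _

theorem rm_pos (x : E) : 0 < rm x := lt_of_lt_of_le one_pos (one_le_rm x)

theorem rmi_le (x : E) : (rm x)⁻¹ ≤ 1 := inv_le_one_of_one_le₀ (one_le_rm x)

theorem rmi_pos (x : E) : 0 < (rm x)⁻¹ := inv_pos.2 (rm_pos x)

theorem rm_of_le {x : E} (h : ‖x‖ ≤ 1) : rm x = 1 := max_eq_right h

theorem rm_of_ge {x : E} (h : 1 ≤ ‖x‖) : rm x = ‖x‖ := max_eq_left h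

theorem rad_of_le {x : E} (h : ‖x‖ ≤ 1) : rad x = x := by
  rw [rad, rm_of_le h]
  norm_num

theorem radi_of_le {x : E} (h : ‖x‖ ≤ 1) : radi x = x := by
  rw [radi, rm_of_le h]
  norm_num

theorem norm_rad {x : E} (h : 1 ≤ ‖x‖) : ‖rad x‖ = 2 - (rm x)⁻¹ := by
  have h1 := rmi_le x
  have h2 := rmi_pos x
  rw [rad, norm_smul, Real.norm_eq_abs, abs_of_pos (mul_pos h2 (by linarith))]
  have h3 : ‖x‖ = rm x := (rm_of_ge h).symm
  rw [h3]
  field_simp [(rm_pos x).ne']

theorem rmi_le_sub (x : E) : (rm x)⁻¹ ≤ 2 - ‖rad x‖ := by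
  rcases le_total ‖x‖ 1 with h | h
  · rw [rad_of_le h]
    linarith [rmi_le x]
  · rw [norm_rad h]
    linarith

theorem norm_rad_lt (x : E) : ‖rad x‖ < 2 := by
  have := rmi_le_sub x
  have := rmi_pos x
  linarith

theorem radi_rad (x : E) : radi (rad x) = x := by
  rcases le_total ‖x‖ 1 with h | h
  · rw [rad_of_le h, radi_of_le h]
  · have h1 := norm_rad h
    have h2 := rmi_le x
    have h3 := rmi_pos x
    have h4 : rm (rad x) = 2 - (rm x)⁻¹ := by
      rw [rm_of_ge, h1]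
      rw [h1]
      linarith
    rw [radi, h4, rad, smul_smul]
    have h5 : ((2 - (rm x)⁻¹) * (2 - (2 - (rm x)⁻¹)))⁻¹ * ((rm x)⁻¹ * (2 - (rm x)⁻¹)) = 1 := by
      have : (2 - (rm x)⁻¹) * (2 - (2 - (rm x)⁻¹)) = (rm x)⁻¹ * (2 - (rm x)⁻¹) := by ring
      rw [this]
      exact inv_mul_cancel₀ (mul_pos h3 (by linarith)).ne'
    rw [h5, one_smul]

theorem rad_radi {w : E} (hw : ‖w‖ < 2) : rad (radi w) = w := by
  rcases le_total ‖w‖ 1 with h | h
  · rw [radi_of_le h, rad_of_le h]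
  · have h1 : rm w = ‖w‖ := rm_of_ge h
    have h2 : 0 < 2 - ‖w‖ := by linarith
    have h3 : ‖radi w‖ = (2 - ‖w‖)⁻¹ := by
      rw [radi, h1, norm_smul, Real.norm_eq_abs, abs_of_pos (inv_pos.2 (mul_pos (by linarith) h2))]
      have : ‖w‖ ≠ 0 := by linarith
      field_simp
    have h4 : rm (radi w) = (2 - ‖w‖)⁻¹ := by
      rw [rm_of_ge, h3]
      rw [h3]
      exact (one_le_inv₀ h2).2 (by linarith)
    rw [rad, h4, inv_inv, radi, h1, smul_smul]
    have h5 : (2 - ‖w‖) * (2 - (2 - ‖w‖)) * (‖w‖ * (2 - ‖w‖))⁻¹ = 1 := by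
      have : (2 - ‖w‖) * (2 - (2 - ‖w‖)) = ‖w‖ * (2 - ‖w‖) := by ring
      rw [this]
      exact mul_inv_cancel₀ (mul_pos (by linarith) h2).ne'
    rw [h5, one_smul]

theorem rm_sub_le (x y : E) : |rm x - rm y| ≤ ‖x - y‖ := by
  refine (abs_max_sub_max_le_abs ‖x‖ ‖y‖ 1).trans ?_
  exact abs_norm_sub_norm_le x y

theorem rad_sub_le (x y : E) : ‖rad y - rad x‖ ≤ 4 * ‖y - x‖ * (rm x)⁻¹ := by
  -- write `rad y - rad x` with the coefficient of `x`
  set p := (rm x)⁻¹ with hp
  set q := (rm y)⁻¹ with hq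
  have hp0 : 0 < p := rmi_pos x
  have hq0 : 0 < q := rmi_pos y
  have hp1 : p ≤ 1 := rmi_le x
  have hq1 : q ≤ 1 := rmi_le y
  have hx : 0 < rm x := rm_pos x
  have hy : 0 < rm y := rm_pos y
  have e1 : rad y - rad x = (p * (2 - p)) • (y - x) + (q * (2 - q) - p * (2 - p)) • y := by
    rw [rad, rad, ← hp, ← hq, smul_sub, sub_smul]
    abel
  have e2 : |q - p| = |rm x - rm y| * (p * q) := by
    have : q - p = (rm x - rm y) * (p * q) := by
      rw [hp, hq]
      field_simp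
    rw [this, abs_mul, abs_of_pos (mul_pos hp0 hq0)]
  have e3 : |q * (2 - q) - p * (2 - p)| ≤ 2 * (‖y - x‖ * (p * q)) := by
    have : q * (2 - q) - p * (2 - p) = (q - p) * (2 - q - p) := by ring
    rw [this, abs_mul, e2]
    have h1 : |2 - q - p| ≤ 2 := by
      rw [abs_le]
      constructor <;> linarith
    have h2 : |rm x - rm y| ≤ ‖y - x‖ := by
      rw [norm_sub_rev]
      exact rm_sub_le x y
    have h3 : 0 ≤ p * q := (mul_pos hp0 hq0).le
    have h4 : |rm x - rm y| * (p * q) ≤ ‖y - x‖ * (p * q) := mul_le_mul_of_nonneg_right h2 h3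
    have h5 : 0 ≤ |rm x - rm y| * (p * q) := mul_nonneg (abs_nonneg _) h3
    nlinarith [abs_nonneg (2 - q - p)]
  have e4 : q * ‖y‖ ≤ 1 := by
    have h1 := le_rm y
    have h2 : q * ‖y‖ ≤ q * rm y := mul_le_mul_of_nonneg_left h1 hq0.le
    rw [hq, inv_mul_cancel₀ hy.ne'] at h2
    exact h2
  rw [e1]
  refine (norm_add_le _ _).trans ?_
  rw [norm_smul, norm_smul, Real.norm_eq_abs, Real.norm_eq_abs,
    abs_of_nonneg (mul_nonneg hp0.le (by linarith))]
  have e5 : p * (2 - p) * ‖y - x‖ ≤ 2 * ‖y - x‖ * p := by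
    have : 0 ≤ ‖y - x‖ * p := mul_nonneg (norm_nonneg _) hp0.le
    nlinarith
  have e6 : |q * (2 - q) - p * (2 - p)| * ‖y‖ ≤ 2 * ‖y - x‖ * p := by
    refine (mul_le_mul_of_nonneg_right e3 (norm_nonneg y)).trans ?_
    have h1 : 0 ≤ ‖y - x‖ * p := mul_nonneg (norm_nonneg _) hp0.le
    have h2 : 2 * (‖y - x‖ * (p * q)) * ‖y‖ = 2 * (‖y - x‖ * p) * (q * ‖y‖) := by ring
    rw [h2]
    nlinarith
  linarith

theorem continuous_rm : Continuous (rm : E → ℝ) := continuous_norm.max continuous_const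

theorem continuous_rad : Continuous (rad : E → E) := by
  have h1 : Continuous fun x : E => (rm x)⁻¹ := continuous_rm.inv₀ fun x => (rm_pos x).ne'
  exact (h1.mul (continuous_const.sub h1)).smul continuous_id

theorem continuousOn_radi : ContinuousOn (radi : E → E) (ball 0 2) := by
  have h1 : Continuous fun x : E => rm x * (2 - rm x) :=
    continuous_rm.mul (continuous_const.sub continuous_rm)
  refine (h1.continuousOn.inv₀ ?_).smul continuousOn_id
  intro x hx
  rw [mem_ball_zero_iff] at hx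
  have h2 : rm x < 2 := max_lt hx (by norm_num)
  exact (mul_pos (rm_pos x) (by linarith)).ne'

open Classical in
/-- The compressed map. -/
noncomputable def cmp (H : E → E) (w : E) : E := if ‖w‖ < 2 then rad (H (radi w)) else w

theorem cmp_of_lt {H : E → E} {w : E} (h : ‖w‖ < 2) : cmp H w = rad (H (radi w)) := if_pos h

theorem cmp_of_ge {H : E → E} {w : E} (h : 2 ≤ ‖w‖) : cmp H w = w := if_neg (not_lt.2 h)

theorem cmp_cmp {H H' : E → E} (h : ∀ x, H' (H x) = x) (w : E) : cmp H' (cmp H w) = w := by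
  rcases lt_or_ge ‖w‖ 2 with hw | hw
  · rw [cmp_of_lt hw, cmp_of_lt (norm_rad_lt _), radi_rad, h, rad_radi hw]
  · rw [cmp_of_ge hw, cmp_of_ge hw]

theorem cmp_close {H : E → E} {β : ℝ} (hβ : ∀ x, ‖H x - x‖ ≤ β) (w : E) :
    ‖cmp H w - w‖ ≤ 4 * β * max (2 - ‖w‖) 0 := by
  have hβ0 : 0 ≤ β := (norm_nonneg _).trans (hβ 0)
  rcases lt_or_ge ‖w‖ 2 with hw | hw
  · rw [cmp_of_lt hw]
    have h1 := rad_sub_le (radi w) (H (radi w))
    rw [rad_radi hw] at h1
    have h2 := rmi_le_sub (radi w)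
    rw [rad_radi hw] at h2
    have h3 := hβ (radi w)
    have h4 := rmi_pos (radi w)
    refine h1.trans ?_
    refine mul_le_mul (by linarith) (h2.trans (le_max_left _ _)) h4.le (by linarith)
  · rw [cmp_of_ge hw, sub_self, norm_zero]
    exact mul_nonneg (by linarith) (le_max_right _ _)

theorem continuous_cmp {H : E → E} (hH : Continuous H) {β : ℝ} (hβ : ∀ x, ‖H x - x‖ ≤ β) :
    Continuous (cmp H) := by
  rw [continuous_iff_continuousAt]
  intro w
  rcases lt_or_ge ‖w‖ 2 with hw | hw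
  · have hw' : ball (0 : E) 2 ∈ 𝓝 w := isOpen_ball.mem_nhds (by simpa using hw)
    have h1 : ContinuousAt (fun w => rad (H (radi w))) w :=
      continuous_rad.continuousAt.comp (hH.continuousAt.comp (continuousOn_radi.continuousAt hw'))
    refine h1.congr ?_
    filter_upwards [hw'] with y hy
    rw [mem_ball_zero_iff] at hy
    exact (cmp_of_lt hy).symm
  · have h1 : Tendsto (fun y : E => 4 * β * max (2 - ‖y‖) 0) (𝓝 w) (𝓝 0) := by
      have h2 : Continuous fun y : E => 4 * β * max (2 - ‖y‖) 0 := by fun_prop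
      have h3 := h2.tendsto w
      rwa [max_eq_right (by linarith), mul_zero] at h3
    have h4 : Tendsto (fun y => cmp H y - y) (𝓝 w) (𝓝 0) :=
      squeeze_zero_norm (cmp_close hβ) h1
    have h5 := h4.add (continuous_id.tendsto w)
    rw [zero_add] at h5
    show Tendsto _ _ _
    rw [cmp_of_ge hw]
    refine h5.congr fun y => ?_
    simp

/-- Compression of a bounded homeomorphism into a ball. -/
theorem compress (H : E ≃ₜ E) {β : ℝ} (hβ : ∀ x, ‖H x - x‖ ≤ β) :
    ∃ h : E ≃ₜ E, (∀ w, 2 ≤ ‖w‖ → h w = w) ∧ (∀ w, ‖h w - w‖ ≤ 8 * β) ∧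
      (∀ w, ‖w‖ ≤ 1 → ‖H w‖ ≤ 1 → h w = H w) ∧
      (∀ w, ‖w‖ < 2 → (∀ c : ℝ, 1 ≤ c → H (c • w) = c • w) → h w = w) := by
  have hβ0 : 0 ≤ β := (norm_nonneg _).trans (hβ 0)
  have hβ' : ∀ x, ‖H.symm x - x‖ ≤ β := by
    intro x
    have := hβ (H.symm x)
    rwa [H.apply_symm_apply, norm_sub_rev] at this
  refine ⟨{ toFun := cmp H
            invFun := cmp H.symm
            left_inv := cmp_cmp H.symm_apply_apply
            right_inv := cmp_cmp H.apply_symm_apply
            continuous_toFun := continuous_cmp H.continuous hβ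
            continuous_invFun := continuous_cmp H.symm.continuous hβ' }, ?_, ?_, ?_, ?_⟩
  · intro w hw
    exact cmp_of_ge hw
  · intro w
    refine (cmp_close hβ w).trans ?_
    have h1 : max (2 - ‖w‖) 0 ≤ 2 := max_le (by linarith [norm_nonneg w]) (by norm_num)
    nlinarith
  · intro w hw hHw
    show cmp H w = H w
    rw [cmp_of_lt (by linarith), radi_of_le hw, rad_of_le hHw]
  · intro w hw hid
    show cmp H w = w
    rw [cmp_of_lt hw]
    have h1 : 1 ≤ (rm w * (2 - rm w))⁻¹ := by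
      have h2 : rm w < 2 := max_lt hw (by norm_num)
      refine (one_le_inv₀ (mul_pos (rm_pos w) (by linarith))).2 ?_
      nlinarith [sq_nonneg (rm w - 1)]
    have h3 : H (radi w) = radi w := hid _ h1
    rw [h3, rad_radi hw]

end Pool.Agent.H655.EK
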