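import Pool.Agent.H655.EK.Step

/-!
Periodic extension in one direction.
-/

open Set Filter Topology Metric

namespace Pool.Agent.H655.EK

variable {X : Type*} [NormedAddCommGroup X] [NormedSpace ℝ X]

/-- Extension of a near identity embedding of a slab in the direction transversal to it. -/
theorem step [ProperSpace X] (D : Dir X) {O : Set X}
    (hv : ∀ w ∈ O, ∀ s : ℝ, w + s • D.e ∈ O) {g : X → X} {δ : ℝ} (hδ0 : 0 < δ)
    (hδ : δ ≤ 1 / 1000) (hg : OE g (O ∩ {w | |D.τ w| < 7 / 2}))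
    (hc : ∀ w ∈ O, |D.τ w| < 7 / 2 → ‖g w - w‖ ≤ δ) :
    ∃ G : X → X, OE G (core O δ) ∧
      (∀ w ∈ core O δ, ‖G w - w‖ ≤ 41 * δ) ∧
      (∀ w ∈ core O δ, |D.τ w| < 9 / 10 → G w = g w) ∧
      (∀ w ∈ core O δ,
        (∀ s : ℝ, |D.τ w + s| < 7 / 2 → g (w + s • D.e) = w + s • D.e) → G w = w) := by
  obtain ⟨Ψ, hΨ, hΨc, hΨ1, hΨ2, hΨi⟩ := window D hv hδ0 hδ hg hc
  set W : Set X := core O δ ∩ {w | -(9 / 10) < D.τ w ∧ D.τ w < 49 / 10} with hW
  set k : X → ℤ := fun w => ⌊(D.τ w + 1 / 2) / 4⌋ with hk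
  set sh : ℤ → X → X := fun j w => w + (-(4 * (j : ℝ))) • D.e with hsh
  set T : ℤ → X → X := fun j w => Ψ (sh j w) + (4 * (j : ℝ)) • D.e with hT
  have hk1 : ∀ w, -(1 / 2) ≤ D.τ w - 4 * (k w : ℝ) ∧ D.τ w - 4 * (k w : ℝ) < 7 / 2 := by
    intro w
    have h1 := Int.floor_le ((D.τ w + 1 / 2) / 4)
    have h2 := Int.lt_floor_add_one ((D.τ w + 1 / 2) / 4)
    constructor
    · show -(1 / 2) ≤ D.τ w - 4 * ((⌊(D.τ w + 1 / 2) / 4⌋ : ℤ) : ℝ)
      linarith
    · show D.τ w - 4 * ((⌊(D.τ w + 1 / 2) / 4⌋ : ℤ) : ℝ) < 7 / 2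
      linarith
  have hτsh : ∀ (j : ℤ) (w : X), D.τ (sh j w) = D.τ w - 4 * (j : ℝ) := by
    intro j w
    rw [hsh]
    simp only
    rw [D.τ_add]
    ring
  have hcsh : ∀ j : ℤ, ∀ w ∈ core O δ, sh j w ∈ core O δ := fun j w hw => core_vert hv hw _
  have hshW : ∀ j : ℤ, ∀ w ∈ core O δ, -(9 / 10) < D.τ w - 4 * (j : ℝ) →
      D.τ w - 4 * (j : ℝ) < 49 / 10 → sh j w ∈ W := by
    intro j w hw h1 h2
    refine ⟨hcsh j w hw, ?_, ?_⟩
    · rw [hτsh]
      exact h1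
    · rw [hτsh]
      exact h2
  have hshift : ∀ (j : ℤ) (w : X), sh (j + 1) w = sh j w + (-4 : ℝ) • D.e := by
    intro j w
    rw [hsh]
    simp only
    rw [add_assoc, ← add_smul]
    congr 2
    push_cast
    ring
  -- neighbouring windows agree
  have hagree : ∀ j : ℤ, ∀ w ∈ core O δ, 31 / 10 < D.τ w - 4 * (j : ℝ) →
      D.τ w - 4 * (j : ℝ) < 49 / 10 → T j w = T (j + 1) w := by
    intro j w hw h1 h2
    have e1 : Ψ (sh j w) = g (sh j w + (-4 : ℝ) • D.e) + (4 : ℝ) • D.e :=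
      hΨ2 _ (hcsh j w hw) (by rw [hτsh]; exact h1) (by rw [hτsh]; exact h2)
    have e2 : Ψ (sh (j + 1) w) = g (sh (j + 1) w) := by
      refine hΨ1 _ (hcsh _ w hw) ?_ ?_ <;>
      · rw [hτsh]
        push_cast
        linarith
    show Ψ (sh j w) + (4 * (j : ℝ)) • D.e = Ψ (sh (j + 1) w) + (4 * ((j + 1 : ℤ) : ℝ)) • D.e
    rw [e1, e2, hshift, add_assoc, ← add_smul]
    congr 2
    push_cast
    ring
  have key : ∀ j : ℤ, ∀ w ∈ core O δ, -(9 / 10) < D.τ w - 4 * (j : ℝ) →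
      D.τ w - 4 * (j : ℝ) < 49 / 10 → T (k w) w = T j w := by
    intro j w hw h1 h2
    have h3 := hk1 w
    have h4 : k w - j ≤ 1 := by
      by_contra hn
      have h5 : (2 : ℤ) ≤ k w - j := by omega
      have h6 : (2 : ℝ) ≤ (k w : ℝ) - (j : ℝ) := by exact_mod_cast h5
      linarith
    have h5 : -1 ≤ k w - j := by
      by_contra hn
      have h5 : k w - j ≤ (-2 : ℤ) := by omega
      have h6 : (k w : ℝ) - (j : ℝ) ≤ -2 := by exact_mod_cast h5
      linarith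
    rcases (by omega : k w = j ∨ k w = j + 1 ∨ j = k w + 1) with h | h | h
    · rw [h]
    · have h6 : (k w : ℝ) = (j : ℝ) + 1 := by exact_mod_cast h
      rw [h]
      refine (hagree j w hw ?_ h2).symm
      linarith
    · have h6 : (j : ℝ) = (k w : ℝ) + 1 := by exact_mod_cast h
      rw [h]
      refine hagree (k w) w hw ?_ ?_
      · linarith
      · linarith
  set G : X → X := fun w => T (k w) w with hG
  have hGT : ∀ j : ℤ, ∀ w ∈ core O δ, -(9 / 10) < D.τ w - 4 * (j : ℝ) →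
      D.τ w - 4 * (j : ℝ) < 49 / 10 → G w = T j w := key
  have hclose : ∀ w ∈ core O δ, ‖G w - w‖ ≤ 41 * δ := by
    intro w hw
    have h1 := hk1 w
    have h2 := hΨc (sh (k w) w) (hcsh _ w hw) (by rw [hτsh]; linarith) (by rw [hτsh]; linarith)
    have h3 : G w - w = Ψ (sh (k w) w) - sh (k w) w := by
      show Ψ (sh (k w) w) + (4 * (k w : ℝ)) • D.e - w =
        Ψ (sh (k w) w) - (w + (-(4 * (k w : ℝ))) • D.e)
      rw [neg_smul]
      abel
    rw [h3]
    exact h2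
  have hopenV : ∀ j : ℤ, IsOpen (core O δ ∩ {w | -(9 / 10) < D.τ w - 4 * (j : ℝ) ∧
      D.τ w - 4 * (j : ℝ) < 49 / 10}) := by
    intro j
    have h1 : Continuous fun w => D.τ w - 4 * (j : ℝ) := D.τ.continuous.sub continuous_const
    exact (core_open O δ).inter ((isOpen_lt continuous_const h1).inter
      (isOpen_lt h1 continuous_const))
  have hOET : ∀ j : ℤ, OE (T j) (core O δ ∩ {w | -(9 / 10) < D.τ w - 4 * (j : ℝ) ∧
      D.τ w - 4 * (j : ℝ) < 49 / 10}) := by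
    intro j
    have h1 : OE (sh j) (core O δ ∩ {w | -(9 / 10) < D.τ w - 4 * (j : ℝ) ∧
      D.τ w - 4 * (j : ℝ) < 49 / 10}) := oe_homeo (Homeomorph.addRight _) (hopenV j)
    have h2 : OE (Ψ ∘ sh j) (core O δ ∩ {w | -(9 / 10) < D.τ w - 4 * (j : ℝ) ∧
      D.τ w - 4 * (j : ℝ) < 49 / 10}) :=
      hΨ.comp h1 fun w hw => hshW j w hw.1 hw.2.1 hw.2.2
    have h3 : OE (fun y : X => y + (4 * (j : ℝ)) • D.e) univ :=
      oe_homeo (Homeomorph.addRight ((4 * (j : ℝ)) • D.e)) isOpen_univ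
    exact h3.comp h2 fun x _ => mem_univ _
  have hinj : InjOn G (core O δ) := by
    intro x hx y hy hxy
    have h1 : ‖x - y‖ ≤ 82 * δ := by
      have e : x - y = (G y - y) - (G x - x) := by
        rw [hxy]
        abel
      rw [e]
      refine (norm_sub_le _ _).trans ?_
      linarith [hclose x hx, hclose y hy]
    have h2 := abs_le.1 ((D.le _).trans h1)
    rw [map_sub] at h2
    have h3 := hk1 x
    have h4 : -(9 / 10) < D.τ y - 4 * (k x : ℝ) := by linarith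
    have h5 : D.τ y - 4 * (k x : ℝ) < 49 / 10 := by linarith
    have h6 : -(9 / 10) < D.τ x - 4 * (k x : ℝ) := by linarith
    have h7 : D.τ x - 4 * (k x : ℝ) < 49 / 10 := by linarith
    rw [hGT (k x) x hx h6 h7, hGT (k x) y hy h4 h5] at hxy
    exact (hOET (k x)).inj ⟨hx, h6, h7⟩ ⟨hy, h4, h5⟩ hxy
  refine ⟨G, ?_, hclose, ?_, ?_⟩
  · refine oe_local hinj ?_
    intro w hw
    have h3 := hk1 w
    exact ⟨core O δ ∩ {y | -(9 / 10) < D.τ y - 4 * (k w : ℝ) ∧
      D.τ y - 4 * (k w : ℝ) < 49 / 10}, ⟨hw, by linarith, by linarith⟩, inter_subset_left,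
      (hOET (k w)).congr fun y hy => (hGT (k w) y hy.1 hy.2.1 hy.2.2).symm⟩
  · intro w hw h1
    rw [abs_lt] at h1
    have e0 : sh 0 w = w := by
      rw [hsh]
      simp
    rw [hGT 0 w hw (by push_cast; linarith) (by push_cast; linarith)]
    show Ψ (sh 0 w) + (4 * ((0 : ℤ) : ℝ)) • D.e = g w
    rw [e0, hΨ1 w hw (by linarith) (by linarith)]
    simp
  · intro w hw hid
    have h1 := hk1 w
    have h2 : Ψ (sh (k w) w) = sh (k w) w := by
      refine hΨi _ (hcsh _ w hw) (by rw [hτsh]; linarith) (by rw [hτsh]; linarith) ?_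
      intro s hs
      have h3 := hid (s + (-(4 * (k w : ℝ)))) (by
        rw [hτsh] at hs
        convert hs using 2
        ring)
      have h4 : sh (k w) w + s • D.e = w + (s + (-(4 * (k w : ℝ)))) • D.e := by
        show w + (-(4 * (k w : ℝ))) • D.e + s • D.e = _
        rw [add_assoc, ← add_smul, add_comm s]
      rw [h4]
      exact h3
    show Ψ (sh (k w) w) + (4 * (k w : ℝ)) • D.e = w
    rw [h2]
    show w + (-(4 * (k w : ℝ))) • D.e + (4 * (k w : ℝ)) • D.e = w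
    rw [neg_smul, neg_add_cancel_right]

end Pool.Agent.H655.EK
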