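import Pool.Agent.H655.EK.Ext

/-!
Iteration of the one direction extension over several coordinate directions.
-/

open Set Filter Topology Metric

namespace Pool.Agent.H655.EK

variable {ι : Type*} [Fintype ι] [DecidableEq ι]

/-- The `i`-th coordinate direction. -/
noncomputable def coord (i : ι) : Dir (ι → ℝ) where
  τ := ContinuousLinearMap.proj i
  e := Pi.single i 1
  τe := by simp
  le w := by simpa using norm_le_pi_norm w i
  sup w s := by
    rw [pi_norm_le_iff_of_nonneg (le_max_of_le_left (norm_nonneg w))]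
    intro j
    by_cases h : j = i
    · subst h
      simp
    · simp only [Pi.add_apply, Pi.smul_apply, Pi.single_apply, h, if_false, smul_zero, add_zero]
      exact (norm_le_pi_norm w j).trans (le_max_left _ _)

theorem coord_τ (i : ι) (w : ι → ℝ) : (coord i).τ w = w i := rfl

theorem coord_add_same (i : ι) (w : ι → ℝ) (s : ℝ) : (w + s • (coord i).e) i = w i + s := by
  simp [coord]

theorem coord_add_ne {i j : ι} (h : j ≠ i) (w : ι → ℝ) (s : ℝ) :
    (w + s • (coord i).e) j = w j := by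
  simp [coord, Pi.single_apply, h]

/-- The slab in the directions `A` of radius `r`. -/
def slab (A : Finset ι) (r : ℝ) : Set (ι → ℝ) := {w | ∀ i ∈ A, |w i| < r}

theorem slab_open (A : Finset ι) (r : ℝ) : IsOpen (slab A r) := by
  have : slab A r = ⋂ i ∈ A, {w : ι → ℝ | |w i| < r} := by
    ext w
    simp [slab]
  rw [this]
  refine isOpen_biInter_finset fun i _ => ?_
  exact isOpen_lt (continuous_abs.comp (continuous_apply i)) continuous_const

theorem slab_core {A : Finset ι} {r r' δ : ℝ} (h : 6 * δ < r' - r) :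
    slab A r ⊆ core (slab A r') δ := by
  intro w hw
  refine ⟨r' - r, h, ?_⟩
  intro y hy i hi
  rw [mem_ball_iff_norm] at hy
  have h1 := norm_le_pi_norm (y - w) i
  rw [Pi.sub_apply, Real.norm_eq_abs] at h1
  have h2 := hw i hi
  have h3 : |y i| ≤ |y i - w i| + |w i| := by
    have := abs_add_le (y i - w i) (w i)
    simpa using this
  linarith

/-- Extension over several directions. -/
theorem iter (A : Finset ι) (J : Finset ι) (hJ : J ⊆ A) :
    ∀ r : ℝ, 7 / 2 < r → r < 4 → ∀ ε > 0, ∃ δ > 0, ∀ g : (ι → ℝ) → (ι → ℝ),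
      OE g (slab A 4) → (∀ w ∈ slab A 4, ‖g w - w‖ ≤ δ) →
      ∃ G : (ι → ℝ) → (ι → ℝ), OE G (slab (A \ J) r) ∧
        (∀ w ∈ slab (A \ J) r, ‖G w - w‖ ≤ ε) ∧
        (∀ w ∈ slab (A \ J) r, (∀ i ∈ J, |w i| < 9 / 10) → G w = g w) ∧
        (∀ Y : Set (ι → ℝ), (∀ w ∈ Y, ∀ i ∈ A, ∀ s : ℝ, w + s • (coord i).e ∈ Y) →
          (∀ w ∈ slab A 4 ∩ Y, g w = w) → ∀ w ∈ slab (A \ J) r ∩ Y, G w = w) := by
  induction J using Finset.induction_on with
  | empty =>
    intro r _ hr ε hε
    refine ⟨ε, hε, fun g hg hc => ⟨g, ?_, ?_, fun _ _ _ => rfl, ?_⟩⟩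
    · rw [Finset.sdiff_empty]
      exact hg.mono (slab_open _ _) fun w hw i hi => (hw i hi).trans hr
    · rw [Finset.sdiff_empty]
      exact fun w hw => hc w fun i hi => (hw i hi).trans hr
    · rw [Finset.sdiff_empty]
      exact fun Y _ hid w hw => hid w ⟨fun i hi => (hw.1 i hi).trans hr, hw.2⟩
  | insert i J hi ih =>
    intro r hr1 hr2 ε hε
    set r' := (r + 4) / 2 with hr'
    have hiA : i ∈ A := hJ (Finset.mem_insert_self i J)
    set δ' := min (ε / 41) (min (1 / 1000) ((r' - r) / 7)) with hδ'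
    have hr'r : 0 < r' - r := by
      rw [hr']
      linarith
    have hδ'0 : 0 < δ' := by
      rw [hδ']
      refine lt_min (by linarith) (lt_min (by norm_num) (by linarith))
    have hδ'1 : δ' ≤ ε / 41 := min_le_left _ _
    have hδ'2 : δ' ≤ 1 / 1000 := (min_le_right _ _).trans (min_le_left _ _)
    have hδ'3 : δ' ≤ (r' - r) / 7 := (min_le_right _ _).trans (min_le_right _ _)
    obtain ⟨δ, hδ, hstep⟩ := ih ((Finset.subset_insert i J).trans hJ) r' (by linarith)
      (by rw [hr']; linarith) δ' hδ'0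
    refine ⟨δ, hδ, fun g hg hc => ?_⟩
    obtain ⟨G, hG1, hG2, hG3, hG4⟩ := hstep g hg hc
    set O := slab (A \ insert i J) r' with hO
    have hv : ∀ w ∈ O, ∀ s : ℝ, w + s • (coord i).e ∈ O := by
      intro w hw s j hj
      have hji : j ≠ i := by
        rintro rfl
        exact (Finset.mem_sdiff.1 hj).2 (Finset.mem_insert_self _ _)
      rw [coord_add_ne hji]
      exact hw j hj
    have hOsub : O ∩ {w | |(coord i).τ w| < 7 / 2} ⊆ slab (A \ J) r' := by
      rintro w ⟨hw1, hw2⟩ j hj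
      by_cases hji : j = i
      · subst hji
        exact lt_trans hw2 (by linarith)
      · refine hw1 j ?_
        rw [Finset.mem_sdiff] at hj ⊢
        refine ⟨hj.1, ?_⟩
        rw [Finset.mem_insert, not_or]
        exact ⟨hji, hj.2⟩
    have hopen : IsOpen (O ∩ {w | |(coord i).τ w| < 7 / 2}) := by
      refine (slab_open _ _).inter ?_
      exact isOpen_lt (continuous_abs.comp (coord i).τ.continuous) continuous_const
    obtain ⟨G', hG'1, hG'2, hG'3, hG'4⟩ := step (coord i) hv hδ'0 hδ'2 (hG1.mono hopen hOsub)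
      (fun w hw1 hw2 => hG2 w (hOsub ⟨hw1, hw2⟩))
    have hsub : slab (A \ insert i J) r ⊆ core O δ' := slab_core (by linarith)
    have hsub' : ∀ w ∈ slab (A \ insert i J) r, |w i| < 9 / 10 → w ∈ slab (A \ J) r' := by
      intro w hw hwi
      refine hOsub ⟨fun j hj => (hw j hj).trans (by linarith), ?_⟩
      show |w i| < 7 / 2
      linarith
    refine ⟨G', hG'1.mono (slab_open _ _) hsub, ?_, ?_, ?_⟩
    · intro w hw
      refine (hG'2 w (hsub hw)).trans ?_
      linarith
    · intro w hw hwJ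
      have hwi := hwJ i (Finset.mem_insert_self i J)
      rw [hG'3 w (hsub hw) hwi]
      exact hG3 w (hsub' w hw hwi) fun j hj => hwJ j (Finset.mem_insert_of_mem hj)
    · intro Y hY hid w hw
      refine hG'4 w (hsub hw.1) ?_
      intro s hs
      refine hG4 Y hY hid _ ⟨hOsub ⟨hv w ?_ s, ?_⟩, hY w hw.2 i hiA s⟩
      · exact fun j hj => (hw.1 j hj).trans (by linarith)
      · show |(coord i).τ (w + s • (coord i).e)| < 7 / 2
        rw [(coord i).τ_add]
        exact hs

/-- Extension over all slab directions gives a homeomorphism. -/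
theorem iter_homeo (A : Finset ι) : ∀ ε > 0, ∃ δ > 0, ∀ g : (ι → ℝ) → (ι → ℝ),
      OE g (slab A 4) → (∀ w ∈ slab A 4, ‖g w - w‖ ≤ δ) →
      ∃ H : (ι → ℝ) ≃ₜ (ι → ℝ), (∀ w, ‖H w - w‖ ≤ ε) ∧
        (∀ w, (∀ i ∈ A, |w i| < 9 / 10) → H w = g w) ∧
        (∀ Y : Set (ι → ℝ), (∀ w ∈ Y, ∀ i ∈ A, ∀ s : ℝ, w + s • (coord i).e ∈ Y) →
          (∀ w ∈ slab A 4 ∩ Y, g w = w) → ∀ w ∈ Y, H w = w) := by
  intro ε hε
  obtain ⟨δ, hδ, h⟩ := iter A A Finset.Subset.rfl (15 / 4) (by norm_num) (by norm_num) ε hε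
  refine ⟨δ, hδ, fun g hg hc => ?_⟩
  obtain ⟨G, hG1, hG2, hG3, hG4⟩ := h g hg hc
  have hu : ∀ w : ι → ℝ, w ∈ slab (A \ A) (15 / 4) := by
    intro w i hi
    simp at hi
  have hu' : slab (A \ A) (15 / 4 : ℝ) = univ := eq_univ_of_forall hu
  rw [hu'] at hG1
  obtain ⟨H, hH⟩ := exists_homeo hG1 (fun w => hG2 w (hu w))
  refine ⟨H, ?_, ?_, ?_⟩
  · intro w
    rw [hH]
    exact hG2 w (hu w)
  · intro w hw
    rw [hH]
    exact hG3 w (hu w) hw
  · intro Y hY hid w hw
    rw [hH]
    exact hG4 Y hY hid w ⟨hu w, hw⟩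

end Pool.Agent.H655.EK
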