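import Pool.Agent.H655.EK.Basic

/-!
Extension of a near identity embedding of a slab in the direction transversal to the slab.
-/

open Set Filter Topology Metric

namespace Pool.Agent.H655.EK

/-- The first piecewise linear homeomorphism of the line. -/
noncomputable def cmap : ℝ ≃ₜ ℝ where
  toFun t := min t (max (-3 + (t + 3) / 4) (-2 + 4 * (t - 1)))
  invFun s := max s (min (-3 + 4 * (s + 3)) (1 + (s + 2) / 4))
  left_inv t := by
    simp only [max_def, min_def]
    split_ifs <;> linarith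
  right_inv t := by
    simp only [max_def, min_def]
    split_ifs <;> linarith
  continuous_toFun := by fun_prop
  continuous_invFun := by fun_prop

/-- The second piecewise linear homeomorphism of the line. -/
noncomputable def rmap : ℝ ≃ₜ ℝ where
  toFun t := max (min t (-(3 / 2) + (t + 3 / 2) / 9)) (t - 4)
  invFun s := min (max s (-(3 / 2) + 9 * (s + 3 / 2))) (s + 4)
  left_inv t := by
    simp only [max_def, min_def]
    split_ifs <;> linarith
  right_inv t := by
    simp only [max_def, min_def]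
    split_ifs <;> linarith
  continuous_toFun := by fun_prop
  continuous_invFun := by fun_prop

theorem cmap_apply (t : ℝ) : cmap t = min t (max (-3 + (t + 3) / 4) (-2 + 4 * (t - 1))) := rfl

theorem cmap_symm_apply (s : ℝ) :
    cmap.symm s = max s (min (-3 + 4 * (s + 3)) (1 + (s + 2) / 4)) := rfl

theorem rmap_apply (t : ℝ) : rmap t = max (min t (-(3 / 2) + (t + 3 / 2) / 9)) (t - 4) := rfl

theorem rmap_symm_apply (s : ℝ) :
    rmap.symm s = min (max s (-(3 / 2) + 9 * (s + 3 / 2))) (s + 4) := rfl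

theorem cmap_le {t : ℝ} (h : t ≤ 1) : cmap t ≤ -2 := by
  rw [cmap_apply]
  simp only [max_def, min_def]
  split_ifs <;> linarith

theorem cmap_fix {t : ℝ} (h : 2 ≤ t) : cmap t = t := by
  rw [cmap_apply]
  simp only [max_def, min_def]
  split_ifs <;> linarith

theorem cmap_fix' {t : ℝ} (h : 2 ≤ cmap t) : cmap t = t := by
  rw [cmap_apply] at *
  simp only [max_def, min_def] at *
  split_ifs at * <;> linarith

theorem cmap_symm_fix {t : ℝ} (h : 2 ≤ t) : cmap.symm t = t := by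
  rw [cmap_symm_apply]
  simp only [max_def, min_def]
  split_ifs <;> linarith

theorem cmap_bounds {t : ℝ} (h1 : -(9 / 10) < t) (h2 : t < 49 / 10) :
    -(5 / 2) < cmap t ∧ -(5 / 2) < rmap (cmap t) ∧ rmap (cmap t) < 9 / 10 ∧ cmap t ≤ t := by
  rw [rmap_apply, cmap_apply]
  refine ⟨?_, ?_, ?_, ?_⟩
  · simp only [max_def, min_def]
    split_ifs <;> linarith
  · simp only [max_def, min_def]
    split_ifs <;> linarith
  · simp only [max_def, min_def]
    split_ifs <;> linarith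
  · exact min_le_left _ _

theorem cmap_symm_bounds {s : ℝ} (h1 : -3 < s) (h2 : s < 3) :
    -3 < cmap.symm s ∧ cmap.symm s < 3 ∧ cmap.symm s ≤ max s 2 := by
  rw [cmap_symm_apply]
  refine ⟨?_, ?_, ?_⟩ <;>
  · simp only [max_def, min_def]
    split_ifs <;> linarith

theorem cmap_lt {t : ℝ} (h : cmap t < 5 / 2) : t < 5 / 2 := by
  by_contra hn
  rw [cmap_fix (by linarith)] at h
  exact hn h

theorem rmap_fix {t : ℝ} (h : t ≤ -(3 / 2)) : rmap t = t := by
  rw [rmap_apply]
  simp only [max_def, min_def]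
  split_ifs <;> linarith

theorem rmap_symm_fix {t : ℝ} (h : t ≤ -(3 / 2)) : rmap.symm t = t := by
  rw [rmap_symm_apply]
  simp only [max_def, min_def]
  split_ifs <;> linarith

theorem rmap_shift {t : ℝ} (h : 3 ≤ t) : rmap t = t - 4 := by
  rw [rmap_apply]
  simp only [max_def, min_def]
  split_ifs <;> linarith

theorem rmap_symm_shift {t : ℝ} (h : -1 ≤ t) : rmap.symm t = t + 4 := by
  rw [rmap_symm_apply]
  simp only [max_def, min_def]
  split_ifs <;> linarith

theorem cmap_symm_lip (s t : ℝ) : |cmap.symm s - cmap.symm t| ≤ 4 * |s - t| := by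
  have key : ∀ s t : ℝ, s ≤ t → |cmap.symm s - cmap.symm t| ≤ 4 * |s - t| := by
    intro s t h
    rw [abs_of_nonpos (by linarith : s - t ≤ 0), cmap_symm_apply, cmap_symm_apply]
    rw [abs_le]
    constructor <;>
    · simp only [max_def, min_def]
      split_ifs <;> linarith
  rcases le_total s t with h | h
  · exact key s t h
  · rw [abs_sub_comm, abs_sub_comm s t]
    exact key t s h

theorem rmap_symm_lip (s t : ℝ) : |rmap.symm s - rmap.symm t| ≤ 9 * |s - t| := by
  have key : ∀ s t : ℝ, s ≤ t → |rmap.symm s - rmap.symm t| ≤ 9 * |s - t| := by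
    intro s t h
    rw [abs_of_nonpos (by linarith : s - t ≤ 0), rmap_symm_apply, rmap_symm_apply]
    rw [abs_le]
    constructor <;>
    · simp only [max_def, min_def]
      split_ifs <;> linarith
  rcases le_total s t with h | h
  · exact key s t h
  · rw [abs_sub_comm, abs_sub_comm s t]
    exact key t s h

/-- A coordinate direction of a space with (a norm like) the maximum norm. -/
structure Dir (X : Type*) [NormedAddCommGroup X] [NormedSpace ℝ X] where
  τ : X →L[ℝ] ℝ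
  e : X
  τe : τ e = 1
  le : ∀ w, |τ w| ≤ ‖w‖
  sup : ∀ (w : X) (s : ℝ), ‖w + s • e‖ ≤ max ‖w‖ |τ w + s|

section core
variable {X : Type*} [NormedAddCommGroup X]

/-- The points all of whose `6 δ`-neighbourhood is in `O`. -/
def core (O : Set X) (δ : ℝ) : Set X := {w | ∃ r, 6 * δ < r ∧ ball w r ⊆ O}

theorem core_open (O : Set X) (δ : ℝ) : IsOpen (core O δ) := by
  rw [isOpen_iff_mem_nhds]
  rintro w ⟨r, h1, h2⟩
  refine mem_of_superset (ball_mem_nhds w (ε := (r - 6 * δ) / 2) (by linarith)) ?_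
  intro w' hw'
  rw [mem_ball, dist_comm] at hw'
  refine ⟨(r + 6 * δ) / 2, by linarith, (ball_subset_ball' ?_).trans h2⟩
  rw [dist_comm]
  linarith

theorem core_sub {O : Set X} {δ : ℝ} (hδ : 0 ≤ δ) : core O δ ⊆ O := by
  rintro w ⟨r, h1, h2⟩
  exact h2 (mem_ball_self (by linarith))

end core

variable {X : Type*} [NormedAddCommGroup X] [NormedSpace ℝ X]

theorem Dir.τ_add (D : Dir X) (w : X) (s : ℝ) : D.τ (w + s • D.e) = D.τ w + s := by
  rw [map_add, map_smul, D.τe, smul_eq_mul, mul_one]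

/-- The vertical homeomorphism given by a homeomorphism of the line. -/
noncomputable def Dir.vert (D : Dir X) (φ : ℝ ≃ₜ ℝ) : X ≃ₜ X where
  toFun w := w + (φ (D.τ w) - D.τ w) • D.e
  invFun w := w + (φ.symm (D.τ w) - D.τ w) • D.e
  left_inv w := by
    simp only [D.τ_add, add_sub_cancel, Homeomorph.symm_apply_apply]
    rw [add_assoc, ← add_smul]
    simp
  right_inv w := by
    simp only [D.τ_add, add_sub_cancel, Homeomorph.apply_symm_apply]
    rw [add_assoc, ← add_smul]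
    simp
  continuous_toFun := by
    have h1 := φ.continuous
    have h2 := D.τ.continuous
    fun_prop
  continuous_invFun := by
    have h1 := φ.symm.continuous
    have h2 := D.τ.continuous
    fun_prop

theorem Dir.vert_apply (D : Dir X) (φ : ℝ ≃ₜ ℝ) (w : X) :
    D.vert φ w = w + (φ (D.τ w) - D.τ w) • D.e := rfl

theorem Dir.vert_symm (D : Dir X) (φ : ℝ ≃ₜ ℝ) : (D.vert φ).symm = D.vert φ.symm := rfl

theorem Dir.τ_vert (D : Dir X) (φ : ℝ ≃ₜ ℝ) (w : X) : D.τ (D.vert φ w) = φ (D.τ w) := by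
  rw [D.vert_apply, D.τ_add]
  ring

theorem Dir.vert_fix (D : Dir X) (φ : ℝ ≃ₜ ℝ) {w : X} (h : φ (D.τ w) = D.τ w) :
    D.vert φ w = w := by
  rw [D.vert_apply, h]
  simp

theorem Dir.vert_sub (D : Dir X) (φ : ℝ ≃ₜ ℝ) (v w : X) :
    ‖D.vert φ v - D.vert φ w‖ ≤ max ‖v - w‖ |φ (D.τ v) - φ (D.τ w)| := by
  have h := D.sup (v - w) ((φ (D.τ v) - D.τ v) - (φ (D.τ w) - D.τ w))
  have e1 : D.vert φ v - D.vert φ w =
      (v - w) + ((φ (D.τ v) - D.τ v) - (φ (D.τ w) - D.τ w)) • D.e := by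
    rw [D.vert_apply, D.vert_apply, sub_smul (φ (D.τ v) - D.τ v)]
    abel
  rw [e1]
  refine h.trans (le_of_eq ?_)
  congr 2
  rw [map_sub]
  ring

theorem Dir.vert_lip (D : Dir X) (φ : ℝ ≃ₜ ℝ) {L : ℝ} (hL : 1 ≤ L)
    (hφ : ∀ s t, |φ s - φ t| ≤ L * |s - t|) (v w : X) :
    ‖D.vert φ v - D.vert φ w‖ ≤ L * ‖v - w‖ := by
  refine (D.vert_sub φ v w).trans (max_le ?_ ?_)
  · nlinarith [norm_nonneg (v - w)]
  · refine (hφ _ _).trans ?_
    have h := D.le (v - w)
    rw [map_sub] at h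
    nlinarith

theorem core_vert {O : Set X} {δ : ℝ} {e : X} (hv : ∀ w ∈ O, ∀ s : ℝ, w + s • e ∈ O) {w : X}
    (hw : w ∈ core O δ) (s : ℝ) : w + s • e ∈ core O δ := by
  obtain ⟨r, h1, h2⟩ := hw
  refine ⟨r, h1, ?_⟩
  intro y hy
  have h3 : y + (-s) • e ∈ ball w r := by
    rw [mem_ball_iff_norm] at hy ⊢
    have : y + (-s) • e - w = y - (w + s • e) := by
      rw [neg_smul]
      abel
    rw [this]
    exact hy
  have h4 := hv _ (h2 h3) s
  rw [neg_smul, neg_add_cancel_right] at h4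
  exact h4

theorem core_near {O : Set X} {δ : ℝ} {e : X} (hv : ∀ w ∈ O, ∀ s : ℝ, w + s • e ∈ O) {w u : X}
    (hw : w ∈ core O δ) {s : ℝ} (h : ‖u - (w + s • e)‖ ≤ δ) : ball u (5 * δ) ⊆ O := by
  obtain ⟨r, h1, h2⟩ := core_vert hv hw s
  intro y hy
  apply h2
  rw [mem_ball_iff_norm] at hy ⊢
  have : y - (w + s • e) = (y - u) + (u - (w + s • e)) := by abel
  rw [this]
  refine (norm_add_le _ _).trans_lt ?_
  linarith

/-- The data of the first construction. -/
theorem window [ProperSpace X] (D : Dir X) {O : Set X}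
    (hv : ∀ w ∈ O, ∀ s : ℝ, w + s • D.e ∈ O) {g : X → X} {δ : ℝ} (hδ0 : 0 < δ)
    (hδ : δ ≤ 1 / 1000) (hg : OE g (O ∩ {w | |D.τ w| < 7 / 2}))
    (hc : ∀ w ∈ O, |D.τ w| < 7 / 2 → ‖g w - w‖ ≤ δ) :
    ∃ Ψ : X → X, OE Ψ (core O δ ∩ {w | -(9 / 10) < D.τ w ∧ D.τ w < 49 / 10}) ∧
      (∀ w ∈ core O δ, -(9 / 10) < D.τ w → D.τ w < 49 / 10 → ‖Ψ w - w‖ ≤ 41 * δ) ∧
      (∀ w ∈ core O δ, -(9 / 10) < D.τ w → D.τ w ≤ 1 → Ψ w = g w) ∧
      (∀ w ∈ core O δ, 31 / 10 < D.τ w → D.τ w < 49 / 10 →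
        Ψ w = g (w + (-4 : ℝ) • D.e) + (4 : ℝ) • D.e) ∧
      (∀ w ∈ core O δ, -(9 / 10) < D.τ w → D.τ w < 49 / 10 →
        (∀ s : ℝ, |D.τ w + s| < 7 / 2 → g (w + s • D.e) = w + s • D.e) → Ψ w = w) := by
  classical
  have hne : Nonempty X := ⟨0⟩
  set S : Set X := O ∩ {w | |D.τ w| < 7 / 2} with hS
  obtain ⟨gi, hgi, hgi1, hgi2⟩ := hg.symm
  set C := D.vert cmap with hC
  set R := D.vert rmap with hR
  set W : Set X := core O δ ∩ {w | -(9 / 10) < D.τ w ∧ D.τ w < 49 / 10} with hW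
  have hWo : IsOpen W := by
    refine (core_open O δ).inter ?_
    exact (isOpen_lt continuous_const D.τ.continuous).inter
      (isOpen_lt D.τ.continuous continuous_const)
  have hCs : ∀ w, C.symm w = D.vert cmap.symm w := fun w => rfl
  have hRs : ∀ w, R.symm w = D.vert rmap.symm w := fun w => rfl
  set u : X → X := fun w => R.symm (g (R (C w))) with hu
  -- the point `R (C w)`
  have hRC : ∀ w ∈ W, R (C w) ∈ S := by
    intro w hw
    have h1 := cmap_bounds hw.2.1 hw.2.2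
    constructor
    · have h2 := core_sub hδ0.le hw.1
      exact hv _ (hv _ h2 _) _
    · show |D.τ (R (C w))| < 7 / 2
      rw [hR, hC, D.τ_vert, D.τ_vert, abs_lt]
      constructor <;> linarith [h1.2.1, h1.2.2.1]
  have hgRC : ∀ w ∈ W, ‖g (R (C w)) - R (C w)‖ ≤ δ := fun w hw =>
    hc _ (hRC w hw).1 (hRC w hw).2
  have huC : ∀ w ∈ W, ‖u w - C w‖ ≤ 9 * δ := by
    intro w hw
    have h1 := D.vert_lip rmap.symm (L := 9) (by norm_num) rmap_symm_lip (g (R (C w))) (R (C w))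
    have h2 : D.vert rmap.symm (R (C w)) = C w := R.symm_apply_apply (C w)
    rw [h2] at h1
    have h3 := hgRC w hw
    show ‖D.vert rmap.symm (g (R (C w))) - C w‖ ≤ _
    linarith
  have hτu : ∀ w ∈ W, |D.τ (u w) - cmap (D.τ w)| ≤ 9 * δ := by
    intro w hw
    have h1 := D.le (u w - C w)
    rw [map_sub, hC, D.τ_vert] at h1
    exact h1.trans (huC w hw)
  have hball : ∀ w ∈ W, ball (u w) (5 * δ) ⊆ O := by
    intro w hw
    have e1 : ∃ s : ℝ, R (C w) = w + s • D.e := by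
      refine ⟨(cmap (D.τ w) - D.τ w) + (rmap (D.τ (C w)) - D.τ (C w)), ?_⟩
      rw [hR, hC, D.vert_apply rmap, D.vert_apply cmap, add_smul, add_assoc]
    obtain ⟨s, hs⟩ := e1
    have e2 : u w = g (R (C w)) + (rmap.symm (D.τ (g (R (C w)))) - D.τ (g (R (C w)))) • D.e := rfl
    set s' := rmap.symm (D.τ (g (R (C w)))) - D.τ (g (R (C w))) with hs'
    refine core_near hv hw.1 (s := s + s') ?_
    have e3 : u w - (w + (s + s') • D.e) = g (R (C w)) - R (C w) := by
      rw [e2, hs, add_smul]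
      abel
    rw [e3]
    exact hgRC w hw
  -- the inverse of `g` at `u w`
  have hgu : ∀ w ∈ W, D.τ (u w) < 11 / 4 → u w ∈ g '' S ∧ ‖gi (u w) - u w‖ ≤ δ := by
    intro w hw hlt
    have h1 := cmap_bounds hw.2.1 hw.2.2
    have h2 := abs_le.1 (hτu w hw)
    have hsub : ball (u w) (3 * δ) ⊆ S := by
      intro y hy
      refine ⟨hball w hw (ball_subset_ball (by linarith) hy), ?_⟩
      rw [mem_ball_iff_norm] at hy
      have h3 := abs_le.1 ((D.le (y - u w)).trans hy.le)
      rw [map_sub] at h3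
      show |D.τ y| < 7 / 2
      rw [abs_lt]
      constructor <;> linarith [h1.1, h1.2.2.2, hw.2.2]
    obtain ⟨x, hx, hx1, hx2⟩ := cover (f := g) (w := u w) (r := 3 * δ) (δ := δ)
      (hg.mono isOpen_ball hsub) (fun x hx => hc x (hsub hx).1 (hsub hx).2) (by linarith) hδ0.le
    have h4 : gi (u w) = x := by
      rw [← hx2]
      exact hgi1 x (hsub hx)
    rw [h4]
    exact ⟨⟨x, hsub hx, hx2⟩, hx1⟩
  have hτgi : ∀ w ∈ W, D.τ (u w) < 11 / 4 → |D.τ (gi (u w)) - D.τ (u w)| ≤ δ := by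
    intro w hw hlt
    have h := (D.le (gi (u w) - u w)).trans (hgu w hw hlt).2
    rwa [map_sub] at h
  have hτlow : ∀ w ∈ W, -(13 / 5) < D.τ (u w) := by
    intro w hw
    have h1 := cmap_bounds hw.2.1 hw.2.2
    have h2 := abs_le.1 (hτu w hw)
    linarith [h1.1]
  have hCgi : ∀ w ∈ W, D.τ (u w) < 11 / 4 → C.symm (gi (u w)) ∈ S := by
    intro w hw hlt
    have h1 := (hgi2 _ (hgu w hw hlt).1).1
    refine ⟨hv _ h1.1 _, ?_⟩
    show |D.τ (C.symm (gi (u w)))| < 7 / 2
    have h2 := abs_le.1 (hτgi w hw hlt)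
    have h3 := hτlow w hw
    have h4 := cmap_symm_bounds (s := D.τ (gi (u w))) (by linarith) (by linarith)
    rw [hCs, D.τ_vert, abs_lt]
    constructor <;> linarith [h4.1, h4.2.1]
  -- the map
  set Ψ₁ : X → X := fun w => g (C.symm (gi (u w))) with hΨ₁
  set Ψ : X → X := fun w => if D.τ (u w) < 5 / 2 then Ψ₁ w else u w with hΨ
  have hOEu : OE u W := by
    have h1 : OE (fun w => R (C w)) W := oe_homeo (C.trans R) hWo
    have h2 : OE (g ∘ fun w => R (C w)) W := hg.comp h1 hRC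
    have h3 : OE R.symm (univ : Set X) := oe_homeo R.symm isOpen_univ
    exact h3.comp h2 fun x _ => mem_univ _
  have hcontτu : ContinuousOn (fun w => D.τ (u w)) W := D.τ.continuous.comp_continuousOn hOEu.cont
  set W₁ : Set X := W ∩ {w | D.τ (u w) < 5 / 2} with hW₁
  have hW₁o : IsOpen W₁ := hcontτu.isOpen_inter_preimage hWo isOpen_Iio
  set W₂ : Set X := W ∩ {w | 9 / 4 < D.τ (u w)} with hW₂
  have hW₂o : IsOpen W₂ := hcontτu.isOpen_inter_preimage hWo isOpen_Ioi
  have hOE1 : OE Ψ₁ W₁ := by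
    have h1 : OE u W₁ := hOEu.mono hW₁o inter_subset_left
    have h2 : OE (gi ∘ u) W₁ := hgi.comp h1 fun x hx =>
      (hgu x hx.1 (lt_trans hx.2 (by norm_num))).1
    have h3 : OE C.symm (univ : Set X) := oe_homeo C.symm isOpen_univ
    have h4 : OE (C.symm ∘ (gi ∘ u)) W₁ := h3.comp h2 fun x _ => mem_univ _
    exact hg.comp h4 fun x hx => hCgi x hx.1 (lt_trans hx.2 (by norm_num))
  have hΨ₁u : ∀ w ∈ W, 9 / 4 < D.τ (u w) → D.τ (u w) < 11 / 4 → Ψ₁ w = u w := by
    intro w hw h1 h2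
    have h3 := abs_le.1 (hτgi w hw h2)
    have h4 : C.symm (gi (u w)) = gi (u w) := by
      rw [hCs]
      exact D.vert_fix _ (cmap_symm_fix (by linarith))
    show g (C.symm (gi (u w))) = u w
    rw [h4]
    exact (hgi2 _ (hgu w hw h2).1).2
  have hΨ1 : ∀ w ∈ W₁, Ψ₁ w = Ψ w := by
    intro w hw
    have h1 : D.τ (u w) < 5 / 2 := hw.2
    show _ = if D.τ (u w) < 5 / 2 then Ψ₁ w else u w
    rw [if_pos h1]
  have hΨ2 : ∀ w ∈ W₂, u w = Ψ w := by
    intro w hw
    show _ = if D.τ (u w) < 5 / 2 then Ψ₁ w else u w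
    have h1 : 9 / 4 < D.τ (u w) := hw.2
    split_ifs with h
    · exact (hΨ₁u w hw.1 h1 (by linarith)).symm
    · rfl
  have hlow : ∀ w ∈ W, D.τ (u w) ≤ 9 / 4 → D.τ (Ψ₁ w) < 5 / 2 := by
    intro w hw h1
    have h0 : D.τ (u w) < 11 / 4 := by linarith
    have h2 := hCgi w hw h0
    have h3 := (D.le _).trans (hc _ h2.1 h2.2)
    rw [map_sub, hCs, D.τ_vert] at h3
    have h4 := abs_le.1 (hτgi w hw h0)
    have h5 := hτlow w hw
    have h6 := (cmap_symm_bounds (s := D.τ (gi (u w))) (by linarith) (by linarith)).2.2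
    have h7 : max (D.τ (gi (u w))) 2 ≤ 9 / 4 + δ := max_le (by linarith) (by linarith)
    have h8 := abs_le.1 h3
    have h9 : D.τ (Ψ₁ w) - cmap.symm (D.τ (gi (u w))) ≤ δ := h8.2
    linarith
  have hinj : InjOn Ψ W := by
    have hmix : ∀ x ∈ W, ∀ y ∈ W, D.τ (u x) < 5 / 2 → ¬ D.τ (u y) < 5 / 2 → Ψ x = Ψ y →
        x = y := by
      intro x hx y hy h1 h2 h3
      have h4 : Ψ y = u y := by
        show (if D.τ (u y) < 5 / 2 then Ψ₁ y else u y) = _
        rw [if_neg h2]
      by_cases h5 : 9 / 4 < D.τ (u x)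
      · have h6 := hΨ2 x ⟨hx, h5⟩
        rw [← h6, h4] at h3
        exact hOEu.inj hx hy h3
      · have h6 := hlow x hx (not_lt.1 h5)
        rw [hΨ1 x ⟨hx, h1⟩, h3, h4] at h6
        exact absurd h6 h2
    intro x hx y hy hxy
    by_cases h1 : D.τ (u x) < 5 / 2
    · by_cases h2 : D.τ (u y) < 5 / 2
      · rw [← hΨ1 x ⟨hx, h1⟩, ← hΨ1 y ⟨hy, h2⟩] at hxy
        exact hOE1.inj ⟨hx, h1⟩ ⟨hy, h2⟩ hxy
      · exact hmix x hx y hy h1 h2 hxy
    · by_cases h2 : D.τ (u y) < 5 / 2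
      · exact (hmix y hy x hx h2 h1 hxy.symm).symm
      · rw [← hΨ2 x ⟨hx, lt_of_lt_of_le (by norm_num) (not_lt.1 h1)⟩,
          ← hΨ2 y ⟨hy, lt_of_lt_of_le (by norm_num) (not_lt.1 h2)⟩] at hxy
        exact hOEu.inj hx hy hxy
  have hOE : OE Ψ W := by
    refine oe_local hinj ?_
    intro w hw
    by_cases h1 : D.τ (u w) < 5 / 2
    · exact ⟨W₁, ⟨hw, h1⟩, inter_subset_left, hOE1.congr hΨ1⟩
    · exact ⟨W₂, ⟨hw, lt_of_lt_of_le (by norm_num) (not_lt.1 h1)⟩, inter_subset_left,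
        (hOEu.mono hW₂o inter_subset_left).congr hΨ2⟩
  refine ⟨Ψ, hOE, ?_, ?_, ?_, ?_⟩
  · intro w hw1 hw2 hw3
    have hw : w ∈ W := ⟨hw1, hw2, hw3⟩
    by_cases h1 : D.τ (u w) < 5 / 2
    · have h0 : D.τ (u w) < 11 / 4 := by linarith
      rw [← hΨ1 w ⟨hw, h1⟩]
      have h2 := hCgi w hw h0
      have h3 := hc _ h2.1 h2.2
      have h4 := D.vert_lip cmap.symm (L := 4) (by norm_num) cmap_symm_lip (gi (u w)) (C w)
      have h5 : D.vert cmap.symm (C w) = w := C.symm_apply_apply w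
      rw [h5] at h4
      have h6 : ‖gi (u w) - C w‖ ≤ δ + 9 * δ := by
        have : gi (u w) - C w = (gi (u w) - u w) + (u w - C w) := by abel
        rw [this]
        exact (norm_add_le _ _).trans (add_le_add (hgu w hw h0).2 (huC w hw))
      have h7 : Ψ₁ w - w = (g (C.symm (gi (u w))) - C.symm (gi (u w))) +
          (D.vert cmap.symm (gi (u w)) - w) := by
        show g (C.symm (gi (u w))) - w = _
        rw [hCs]
        abel
      rw [h7]
      refine (norm_add_le _ _).trans ?_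
      linarith
    · rw [← hΨ2 w ⟨hw, lt_of_lt_of_le (by norm_num) (not_lt.1 h1)⟩]
      have h2 := abs_le.1 (hτu w hw)
      have h3 : cmap (D.τ w) = D.τ w := cmap_fix' (by linarith [not_lt.1 h1])
      have h4 : C w = w := D.vert_fix _ h3
      have h5 := huC w hw
      rw [h4] at h5
      linarith
  · intro w hw1 hw2 hw3
    have hw : w ∈ W := ⟨hw1, hw2, by linarith⟩
    have h1 := cmap_le hw3
    have h1' := cmap_bounds hw2 (by linarith)
    have h2 : R (C w) = C w := by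
      apply D.vert_fix
      rw [hC, D.τ_vert]
      exact rmap_fix (by linarith)
    have h3 := hRC w hw
    rw [h2] at h3
    have h4 := hc _ h3.1 h3.2
    have h5 := abs_le.1 ((D.le _).trans h4)
    rw [map_sub, hC, D.τ_vert] at h5
    have h6 : u w = g (C w) := by
      show R.symm (g (R (C w))) = _
      rw [h2, hRs]
      apply D.vert_fix
      exact rmap_symm_fix (by rw [hC]; linarith [h5.2])
    have h7 : D.τ (u w) < 5 / 2 := by
      rw [h6, hC]
      linarith [h5.2]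
    rw [← hΨ1 w ⟨hw, h7⟩]
    show g (C.symm (gi (u w))) = g w
    rw [h6, hgi1 _ h3, Homeomorph.symm_apply_apply]
  · intro w hw1 hw2 hw3
    have hw : w ∈ W := ⟨hw1, by linarith, hw3⟩
    have h1 : C w = w := D.vert_fix _ (cmap_fix (by linarith))
    have h2 : R (C w) = w + (-4 : ℝ) • D.e := by
      rw [h1, hR, D.vert_apply, rmap_shift (by linarith)]
      congr 2
      ring
    have h3 := hRC w hw
    rw [h2] at h3
    have h4 := abs_le.1 ((D.le _).trans (hc _ h3.1 h3.2))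
    rw [map_sub, D.τ_add] at h4
    have h5 : u w = g (w + (-4 : ℝ) • D.e) + (4 : ℝ) • D.e := by
      show R.symm (g (R (C w))) = _
      rw [h2, hRs, D.vert_apply, rmap_symm_shift (by linarith)]
      congr 2
      ring
    have h6 : 9 / 4 < D.τ (u w) := by
      rw [h5, D.τ_add]
      linarith
    rw [← hΨ2 w ⟨hw, h6⟩, h5]
  · intro w hw1 hw2 hw3 hid
    have hw : w ∈ W := ⟨hw1, hw2, hw3⟩
    have hlift : ∀ y : X, (∃ s : ℝ, y = w + s • D.e) → |D.τ y| < 7 / 2 → g y = y := by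
      rintro y ⟨s, rfl⟩ hy
      rw [D.τ_add] at hy
      exact hid s hy
    have e1 : ∃ s : ℝ, R (C w) = w + s • D.e := by
      refine ⟨(cmap (D.τ w) - D.τ w) + (rmap (D.τ (C w)) - D.τ (C w)), ?_⟩
      rw [hR, hC, D.vert_apply rmap, D.vert_apply cmap, add_smul, add_assoc]
    have h1 : u w = C w := by
      show R.symm (g (R (C w))) = _
      rw [hlift _ e1 (hRC w hw).2, Homeomorph.symm_apply_apply]
    by_cases h2 : D.τ (u w) < 5 / 2
    · rw [← hΨ1 w ⟨hw, h2⟩]
      show g (C.symm (gi (u w))) = w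
      rw [h1]
      have h3 : D.τ w < 5 / 2 := by
        rw [h1, hC, D.τ_vert] at h2
        exact cmap_lt h2
      have hτC : |D.τ (C w)| < 7 / 2 := by
        have h5 := cmap_bounds hw2 hw3
        rw [hC, D.τ_vert, abs_lt]
        constructor <;> linarith [h5.1, h5.2.2.2]
      have h4 : g (C w) = C w := hlift _ ⟨_, rfl⟩ hτC
      have h5 : C w ∈ S := ⟨hv _ (core_sub hδ0.le hw1) _, hτC⟩
      have h6 : gi (C w) = C w := by
        have := hgi1 _ h5
        rwa [h4] at this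
      rw [h6, Homeomorph.symm_apply_apply]
      apply hlift _ ⟨0, by simp⟩
      rw [abs_lt]
      constructor <;> linarith
    · rw [← hΨ2 w ⟨hw, lt_of_lt_of_le (by norm_num) (not_lt.1 h2)⟩, h1]
      rw [h1, hC, D.τ_vert] at h2
      exact D.vert_fix _ (cmap_fix' (by linarith [not_lt.1 h2]))

end Pool.Agent.H655.EK
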